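import Pool.Agent.Q14.TG.Tree

/-! A point stabiliser is finitely generated if the point stabilisers of the vertex groups are. -/

set_option autoImplicit false

namespace Pool.Agent.Q14.TG

open MulAction

/-- Brown's criterion for point stabilisers. -/
theorem stab_fg {G X V E : Type*} [Group G] [MulAction G X] [Finite V] [Finite E] {o t : E → V}
    (hΓ : (graph o t).Connected) (S : V → Subgroup G) (C : E → Subgroup G)
    (hC1 : ∀ e, C e ≤ S (o e)) (hC2 : ∀ e, C e ≤ S (t e))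
    (hgen : ∀ g : G, g ∈ ⨆ v, S v)
    (horb : ∀ e, ∃ Ψ : Set X, Ψ.Finite ∧ ∀ x : X, ∃ c ∈ C e, c • x ∈ Ψ)
    (hst : ∀ (v : V) (x : X), ∃ A : Set G, A.Finite ∧ Subgroup.closure A = S v ⊓ stabilizer G x) (x₀ : X) :
    (stabilizer G x₀).FG := by
  classical
  obtain ⟨v₀⟩ : Nonempty V := hΓ.nonempty
  choose Ψ hΨ1 hΨ2 using horb
  choose A hA1 hA2 using hst
  -- the finite set of points
  set Φ : Set X := insert x₀ (⋃ e, Ψ e) ∩ {x | ∃ g : G, g • x₀ = x} with hΦ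
  have hΦf : Φ.Finite := ((Set.finite_iUnion hΨ1).insert x₀).inter_of_left _
  have hx₀ : x₀ ∈ Φ := ⟨Or.inl rfl, 1, one_smul _ _⟩
  have hτ : ∀ x : X, ∃ g : G, (x ∈ Φ → g • x₀ = x) ∧ (x = x₀ → g = 1) := by
    intro x
    by_cases h : x = x₀
    · exact ⟨1, fun _ => by rw [one_smul, h], fun _ => rfl⟩
    · by_cases h' : x ∈ Φ
      · obtain ⟨g, hg⟩ := h'.2
        exact ⟨g, fun _ => hg, fun h'' => absurd h'' h⟩
      · exact ⟨1, fun h'' => absurd h'' h', fun h'' => absurd h'' h⟩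
  choose τ hτ1 hτ2 using hτ
  have ha : ∀ (v : V) (y y' : X), ∃ a : G, (∃ s ∈ S v, s • y' = y) → a ∈ S v ∧ a • y' = y := by
    intro v y y'
    by_cases h : ∃ s ∈ S v, s • y' = y
    · obtain ⟨s, h1, h2⟩ := h
      exact ⟨s, fun _ => ⟨h1, h2⟩⟩
    · exact ⟨1, fun h' => absurd h' h⟩
  choose a ha using ha
  -- the generating set
  set 𝔉 : Set G := (⋃ v : V, ⋃ y ∈ Φ, (fun s => (τ y)⁻¹ * s * τ y) '' A v y) ∪
    ((fun q : V × X × X => (τ q.2.1)⁻¹ * a q.1 q.2.1 q.2.2 * τ q.2.2) ''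
      {q | (q.2.1 ∈ Φ ∧ q.2.2 ∈ Φ) ∧ ∃ s ∈ S q.1, s • q.2.2 = q.2.1}) with h𝔉
  have hfin : 𝔉.Finite := by
    refine Set.Finite.union (Set.finite_iUnion fun v => hΦf.biUnion fun y _ => (hA1 v y).image _)
      (Set.Finite.image _ ?_)
    refine Set.Finite.subset (Set.Finite.prod (Set.finite_univ (α := V)) (hΦf.prod hΦf)) ?_
    rintro ⟨v, y, y'⟩ ⟨⟨h1, h2⟩, -⟩
    exact ⟨Set.mem_univ _, h1, h2⟩
  have hB1 : ∀ v (s : G) (y y' : X), y ∈ Φ → y' ∈ Φ → s ∈ S v → s • y' = y →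
      (τ y)⁻¹ * s * τ y' ∈ Subgroup.closure 𝔉 := by
    intro v s y y' hy hy' hs hsy
    have h1 := ha v y y' ⟨s, hs, hsy⟩
    have h2 : s * (a v y y')⁻¹ ∈ Subgroup.closure (A v y) := by
      rw [hA2]
      refine ⟨(S v).mul_mem hs ((S v).inv_mem h1.1), ?_⟩
      show (s * (a v y y')⁻¹) • y = y
      rw [mul_smul, inv_smul_eq_iff.2 h1.2.symm, hsy]
    have h3 : (τ y)⁻¹ * (s * (a v y y')⁻¹) * τ y ∈ Subgroup.closure 𝔉 := by
      refine Subgroup.closure_induction (p := fun z _ => (τ y)⁻¹ * z * τ y ∈ Subgroup.closure 𝔉)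
        ?_ ?_ ?_ ?_ h2
      · intro z hz
        refine Subgroup.subset_closure (Or.inl ?_)
        exact Set.mem_iUnion.2 ⟨v, Set.mem_biUnion hy ⟨z, hz, rfl⟩⟩
      · simp
      · intro z w _ _ hz hw
        have := Subgroup.mul_mem _ hz hw
        convert this using 1
        group
      · intro z _ hz
        have := Subgroup.inv_mem _ hz
        convert this using 1
        group
    have h4 : (τ y)⁻¹ * a v y y' * τ y' ∈ Subgroup.closure 𝔉 :=
      Subgroup.subset_closure (Or.inr ⟨(v, y, y'), ⟨⟨hy, hy'⟩, s, hs, hsy⟩, rfl⟩)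
    have := Subgroup.mul_mem _ h3 h4
    convert this using 1
    group
  -- the main claim
  let P : G → V → Prop := fun g v => ∃ y ∈ Φ, ∃ s ∈ S v, ∃ b ∈ Subgroup.closure 𝔉,
    g = b * (τ y)⁻¹ * s
  have hle : Subgroup.closure 𝔉 ≤ stabilizer G x₀ := by
    rw [Subgroup.closure_le]
    rintro g (hg | hg)
    · obtain ⟨v, hg⟩ := Set.mem_iUnion.1 hg
      obtain ⟨y, hy, z, hz, rfl⟩ := Set.mem_iUnion₂.1 hg
      have hz' : z ∈ S v ⊓ stabilizer G y := by rw [← hA2]; exact Subgroup.subset_closure hz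
      show ((τ y)⁻¹ * z * τ y) • x₀ = x₀
      rw [mul_smul, mul_smul, hτ1 y hy, (hz'.2 : z • y = y), inv_smul_eq_iff, hτ1 y hy]
    · obtain ⟨⟨v, y, y'⟩, ⟨⟨h1, h2⟩, h3⟩, rfl⟩ := hg
      show ((τ y)⁻¹ * a v y y' * τ y') • x₀ = x₀
      rw [mul_smul, mul_smul, hτ1 y' h2, (ha v y y' h3).2, inv_smul_eq_iff, hτ1 y h1]
  have hstep : ∀ (e : E) (u w : V) (g : G), C e ≤ S u → C e ≤ S w → P g u → P g w := by
    rintro e u w g hu hw ⟨y, hy, s, hs, b, hb, rfl⟩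
    obtain ⟨c, hc, hcx⟩ := hΨ2 e (s⁻¹ • y)
    set ψ := c • s⁻¹ • y with hψ
    have hψ' : ψ ∈ Φ := by
      refine ⟨Or.inr (Set.mem_iUnion.2 ⟨e, hcx⟩), c * s⁻¹ * τ y, ?_⟩
      rw [mul_smul, hτ1 y hy, mul_smul]
    refine ⟨ψ, hψ', c, hw hc, b * ((τ y)⁻¹ * (s * c⁻¹) * τ ψ), ?_, ?_⟩
    · refine Subgroup.mul_mem _ hb (hB1 u _ y ψ hy hψ' ((S u).mul_mem hs ((S u).inv_mem (hu hc))) ?_)
      rw [hψ, mul_smul, inv_smul_smul, smul_inv_smul]
    · group
  have h11 : P 1 v₀ := ⟨x₀, hx₀, 1, (S v₀).one_mem, 1, Subgroup.one_mem _, by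
    rw [hτ2 x₀ rfl]; simp⟩
  have hall : ∀ g, P g v₀ → ∀ v, P g v := by
    intro g hg
    exact edge_induction hΓ v₀ hg (fun e h => hstep e _ _ g (hC1 e) (hC2 e) h)
      (fun e h => hstep e _ _ g (hC2 e) (hC1 e) h)
  have hG : ∀ g : G, ∀ v, P g v := by
    intro g
    have hg := hgen g
    -- right multiplication
    have hr : ∀ z ∈ ⨆ v, S v, ∀ g, (∀ v, P g v) → ∀ v, P (g * z) v := by
      intro z hz
      refine Subgroup.iSup_induction S
        (C := fun z => ∀ g, (∀ v, P g v) → ∀ v, P (g * z) v) hz ?_ ?_ ?_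
      · intro w z hz g hg v
        have h1 : P (g * z) w := by
          obtain ⟨y, hy, s, hs, b, hb, rfl⟩ := hg w
          exact ⟨y, hy, s * z, (S w).mul_mem hs hz, b, hb, by group⟩
        exact edge_induction hΓ w h1 (fun e h => hstep e _ _ _ (hC1 e) (hC2 e) h)
          (fun e h => hstep e _ _ _ (hC2 e) (hC1 e) h) v
      · intro g hg v
        rw [mul_one]; exact hg v
      · intro z w hz hw g hg v
        rw [← mul_assoc]
        exact hw _ (hz _ hg) v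
    have := hr g hg 1 (hall 1 h11)
    simpa using this
  refine ⟨hfin.toFinset, ?_⟩
  rw [Set.Finite.coe_toFinset]
  refine le_antisymm hle ?_
  intro g hg
  obtain ⟨y, hy, s, hs, b, hb, rfl⟩ := hG g v₀
  have h1 : s • x₀ = y := by
    have h2 : (b * (τ y)⁻¹ * s) • x₀ = x₀ := hg
    rw [mul_smul, mul_smul] at h2
    have h3 : b⁻¹ • x₀ = x₀ := hle (Subgroup.inv_mem _ hb)
    rw [smul_eq_iff_eq_inv_smul, h3, inv_smul_eq_iff, hτ1 y hy] at h2
    exact h2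
  have h4 := hB1 v₀ s y x₀ hy hx₀ hs h1
  rw [hτ2 x₀ rfl, mul_one] at h4
  rw [mul_assoc]
  exact Subgroup.mul_mem _ hb h4

end Pool.Agent.Q14.TG
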