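import Pool.Agent.Q14.TG.Tree

/-! Weights along a tree. -/

set_option autoImplicit false

namespace Pool.Agent.Q14.TG

open Finset

/-- the formal sum of the weights -/
noncomputable def Xw {T : Type*} [Fintype T] (w : T → ℤ) : MonoidAlgebra ℕ ℤ :=
  ∑ t, MonoidAlgebra.single (w t) 1

theorem Xw_mul {T T' : Type*} [Fintype T] [Fintype T'] (w : T → ℤ) (w' : T' → ℤ) :
    Xw w * Xw w' = Xw (fun p : T × T' => w p.1 * w' p.2) := by
  unfold Xw
  rw [Finset.sum_mul_sum, Fintype.sum_prod_type]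
  simp only [MonoidAlgebra.single_mul_single, mul_one]

theorem Xw_equiv {T T' : Type*} [Fintype T] [Fintype T'] (w : T' → ℤ) (e : T ≃ T') :
    Xw (fun t => w (e t)) = Xw w := by
  unfold Xw
  exact Equiv.sum_comp e (fun t => (MonoidAlgebra.single (w t) 1 : MonoidAlgebra ℕ ℤ))

theorem Xw_apply {T : Type*} [Fintype T] (w : T → ℤ) (z : ℤ) :
    (Xw w).coeff z = Fintype.card {t // w t = z} := by
  classical
  unfold Xw
  rw [Fintype.card_subtype, Finset.card_filter, MonoidAlgebra.coeff_sum]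
  rw [Finsupp.finset_sum_apply]
  refine Finset.sum_congr rfl fun t _ => ?_
  rw [MonoidAlgebra.coeff_single, Finsupp.single_apply]

theorem equiv_of_Xw {T T' : Type*} [Fintype T] [Fintype T'] (w : T → ℤ) (w' : T' → ℤ)
    (h : Xw w = Xw w') : ∃ e : T ≃ T', ∀ t, w' (e t) = w t := by
  classical
  have h1 : ∀ z, Nonempty ({t // w t = z} ≃ {t // w' t = z}) := by
    intro z
    have := congrArg (fun f => f.coeff z) h
    simp only [Xw_apply] at this
    exact ⟨Fintype.equivOfCardEq (by exact_mod_cast this)⟩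
  exact ⟨Equiv.ofFiberEquiv fun z => (h1 z).some, fun t => Equiv.ofFiberEquiv_map _ t⟩

/-- a formal sum with nonzero weights -/
def Realz (μ : MonoidAlgebra ℕ ℤ) : Prop :=
  ∃ (n : ℕ) (l : Fin n → ℤ), 0 < n ∧ (∀ i, l i ≠ 0) ∧ Xw l = μ

theorem realz_one : Realz 1 := by
  refine ⟨1, fun _ => 1, one_pos, fun _ => one_ne_zero, ?_⟩
  unfold Xw
  simp [MonoidAlgebra.one_def]

theorem realz_Xw {T : Type*} [Fintype T] [Nonempty T] (w : T → ℤ) (hw : ∀ x, w x ≠ 0) :
    Realz (Xw w) :=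
  ⟨Fintype.card T, fun i => w ((Fintype.equivFin T).symm i), Fintype.card_pos,
    fun i => hw _, Xw_equiv w (Fintype.equivFin T).symm⟩

theorem realz_mul {μ ν : MonoidAlgebra ℕ ℤ} (h : Realz μ) (h' : Realz ν) : Realz (μ * ν) := by
  obtain ⟨n, l, hn, hl, rfl⟩ := h
  obtain ⟨n', l', hn', hl', rfl⟩ := h'
  rw [Xw_mul]
  have : Nonempty (Fin n × Fin n') := ⟨⟨⟨0, hn⟩, ⟨0, hn'⟩⟩⟩
  exact realz_Xw _ fun t => mul_ne_zero (hl _) (hl' _)

/-- weights along a tree -/
theorem exists_weights {V E : Type*} [Finite E] {o t : E → V} (hl : ∀ e, o e ≠ t e)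
    (hinj : ∀ e e', s(o e, t e) = s(o e', t e') → e = e') (hΓ : (graph o t).IsTree)
    {T T' : E → Type*} [∀ e, Finite (T e)] [∀ e, Finite (T' e)] [∀ e, Nonempty (T e)]
    [∀ e, Nonempty (T' e)] (w : ∀ e, T e → ℤ) (w' : ∀ e, T' e → ℤ) (hw : ∀ e x, w e x ≠ 0)
    (hw' : ∀ e x, w' e x ≠ 0) :
    ∃ (n : V → ℕ) (l : ∀ v, Fin (n v) → ℤ), (∀ v, 0 < n v) ∧ (∀ v i, l v i ≠ 0) ∧
      ∀ e, ∃ q : T e × Fin (n (o e)) ≃ T' e × Fin (n (t e)),
        ∀ x, w' e (q x).1 * l (t e) (q x).2 = w e x.1 * l (o e) x.2 := by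
  classical
  have := Fintype.ofFinite E
  have hT : ∀ e, Fintype (T e) := fun e => Fintype.ofFinite _
  have hT' : ∀ e, Fintype (T' e) := fun e => Fintype.ofFinite _
  have hreal : ∀ v, Realz (∏ e, if side o t e v then Xw (w' e) else Xw (w e)) := by
    intro v
    refine Finset.prod_induction _ Realz (fun _ _ => realz_mul) realz_one fun e _ => ?_
    split_ifs
    · exact realz_Xw _ (hw' e)
    · exact realz_Xw _ (hw e)
  choose n l hn hl0 hl' using hreal
  refine ⟨n, l, hn, hl0, fun e => ?_⟩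
  refine equiv_of_Xw (fun x : T e × Fin (n (o e)) => w e x.1 * l (o e) x.2)
    (fun x : T' e × Fin (n (t e)) => w' e x.1 * l (t e) x.2) ?_
  rw [← Xw_mul, ← Xw_mul, hl' (o e), hl' (t e),
    ← Finset.mul_prod_erase univ (fun e' => if side o t e' (o e) then Xw (w' e') else Xw (w e'))
      (mem_univ e),
    ← Finset.mul_prod_erase univ (fun e' => if side o t e' (t e) then Xw (w' e') else Xw (w e'))
      (mem_univ e), if_pos (side_o e), if_neg (side_t hl hΓ e)]
  have h1 : ∏ e' ∈ univ.erase e, (if side o t e' (o e) then Xw (w' e') else Xw (w e')) =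
      ∏ e' ∈ univ.erase e, (if side o t e' (t e) then Xw (w' e') else Xw (w e')) := by
    refine Finset.prod_congr rfl fun e' he' => ?_
    have hne : e ≠ e' := (Finset.ne_of_mem_erase he').symm
    have := side_edge (e := e') (e' := e) hl hinj hne
    simp only [this]
  rw [h1]
  ring

/-- multipliers along a tree -/
theorem exists_scale {V E : Type*} [Finite V] {o t : E → V} (hl : ∀ e, o e ≠ t e)
    (hinj : ∀ e e', s(o e, t e) = s(o e', t e') → e = e') (hΓ : (graph o t).IsTree)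
    (a b : E → ℕ) (ha : ∀ e, 0 < a e) (hb : ∀ e, 0 < b e) :
    ∃ k : V → ℕ, (∀ v, 0 < k v) ∧ ∀ e, k (o e) * a e = k (t e) * b e := by
  classical
  have := Fintype.ofFinite V
  obtain ⟨r⟩ : Nonempty V := hΓ.connected.nonempty
  have hab : ∀ e, (a e : ℚ) / b e ≠ 0 := fun e => by
    have h1 : (a e : ℚ) ≠ 0 := by exact_mod_cast (ha e).ne'
    have h2 : (b e : ℚ) ≠ 0 := by exact_mod_cast (hb e).ne'
    positivity
  obtain ⟨p, hp0, hp⟩ := edge_transport hl hinj hΓ (F := fun _ => ℚ)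
    (fun e => Equiv.mulRight₀ ((a e : ℚ) / b e) (hab e)) r
  set q : V → ℚ := fun v => p v 1 with hq
  have hqe : ∀ e, q (t e) = q (o e) * ((a e : ℚ) / b e) := by
    intro e
    simp only [hq, hp e]
    rfl
  have hpos : ∀ v, 0 < q v := by
    refine edge_induction hΓ.connected r (by simp [hq, hp0]) (fun e h => ?_) (fun e h => ?_)
    · rw [hqe]
      have h1 : (0 : ℚ) < a e := by exact_mod_cast ha e
      have h2 : (0 : ℚ) < b e := by exact_mod_cast hb e
      positivity
    · rw [hqe] at h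
      have h1 : (0 : ℚ) < a e := by exact_mod_cast ha e
      have h2 : (0 : ℚ) < b e := by exact_mod_cast hb e
      exact pos_of_mul_pos_left h (by positivity)
  set D : ℕ := ∏ v, (q v).den with hD
  have hD0 : 0 < D := Finset.prod_pos fun v _ => (q v).den_pos
  have hk : ∀ v, ∃ k : ℕ, (k : ℚ) = q v * D := by
    intro v
    obtain ⟨c, hc⟩ := Finset.dvd_prod_of_mem (fun v => (q v).den) (mem_univ v)
    refine ⟨((q v).num * c).toNat, ?_⟩
    have h1 : (0 : ℤ) ≤ (q v).num * c := mul_nonneg (Rat.num_nonneg.2 (hpos v).le) (by positivity)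
    have h2 : ((((q v).num * c).toNat : ℕ) : ℚ) = (((q v).num * c : ℤ) : ℚ) := by
      rw [← Int.cast_natCast, Int.toNat_of_nonneg h1]
    rw [h2, hD, hc]
    push_cast
    rw [← mul_assoc, Rat.mul_den_eq_num]
  choose k hk using hk
  refine ⟨k, fun v => ?_, fun e => ?_⟩
  · have : (0 : ℚ) < k v := by rw [hk]; exact mul_pos (hpos v) (by exact_mod_cast hD0)
    exact_mod_cast this
  · have h2 : (b e : ℚ) ≠ 0 := by exact_mod_cast (hb e).ne'
    have : (k (o e) : ℚ) * a e = k (t e) * b e := by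
      rw [hk, hk, hqe]
      field_simp
    exact_mod_cast this

end Pool.Agent.Q14.TG
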