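import Pool.Agent.Q14.TG.Match
import Pool.Agent.Q14.TG.Weights
import Pool.Agent.Q14.TG.Brown

/-! Gluing along a tree and the finitely generated kernel. -/

set_option autoImplicit false

namespace Pool.Agent.Q14.TG

open Subgroup

theorem core {V E : Type} [Finite V] [Finite E] {o t : E → V} (hl : ∀ e, o e ≠ t e)
    (hinj : ∀ e e', s(o e, t e) = s(o e', t e') → e = e') (hΓ : (graph o t).IsTree)
    {A : V → Type} [∀ v, Group (A v)] {B : E → Type} [∀ e, Group (B e)]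
    (i : ∀ e, B e →* A (o e)) (j : ∀ e, B e →* A (t e))
    {G : Type*} [Group G] (ι : ∀ v, A v →* G)
    (hcompat : ∀ e b, ι (o e) (i e b) = ι (t e) (j e b))
    (hgen : ∀ g : G, g ∈ ⨆ v, (ι v).range)
    (huniv : ∀ (X : Type) (θ : ∀ v, A v →* Equiv.Perm X),
      (∀ e b, θ (o e) (i e b) = θ (t e) (j e b)) →
      ∃ Θ : G →* Equiv.Perm X, ∀ v x, Θ (ι v x) = θ v x)
    (N : ∀ v, Subgroup (A v)) (f : ∀ v, A v → ℤ) (c : ∀ e, B e) (m : E → ℕ)
    (h0 : ∀ e, FlagOK (N (o e)) (i e) (c e) (f (o e)) (m e))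
    (h1 : ∀ e, FlagOK (N (t e)) (j e) (c e) (f (t e)) (m e))
    (hNn : ∀ v, (N v).Normal) (hNf : ∀ v, (N v).FiniteIndex) (hadd : ∀ v, Add (N v) (f v))
    (hfk : ∀ v, FK (N v) (f v)) (hnt : ∀ v, ∃ x ∈ N v, f v x ≠ 0) :
    ∃ (K : Subgroup G) (φ : G → ℤ), K.FiniteIndex ∧ Add K φ ∧ FK K φ ∧ ∃ x ∈ K, φ x ≠ 0 := by
  classical
  have hfq : ∀ v, Finite (A v ⧸ N v) := fun v => Subgroup.finiteIndex_iff_finite_quotient.1 (hNf v)
  have hT : ∀ e, Finite (Orb (N (o e)) (i e)) := fun e => Quotient.finite _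
  have hT' : ∀ e, Finite (Orb (N (t e)) (j e)) := fun e => Quotient.finite _
  have hTn : ∀ e, Nonempty (Orb (N (o e)) (i e)) := fun e => ⟨Quotient.mk _ (QuotientGroup.mk 1)⟩
  have hTn' : ∀ e, Nonempty (Orb (N (t e)) (j e)) := fun e => ⟨Quotient.mk _ (QuotientGroup.mk 1)⟩
  obtain ⟨n, l, hn, hl0, hq⟩ := exists_weights hl hinj hΓ
    (fun e => wt (N (o e)) (i e) (c e) (f (o e)) (m e))
    (fun e => wt (N (t e)) (j e) (c e) (f (t e)) (m e))
    (fun e => (h0 e).wt_ne) (fun e => (h1 e).wt_ne)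
  choose q hq using hq
  choose β hβ1 hβ2 using fun e => flag_match (h0 e) (h1 e) (l (o e)) (l (t e)) (q e) (hq e)
  obtain ⟨r⟩ : Nonempty V := hΓ.connected.nonempty
  obtain ⟨p, hpr, hp⟩ := edge_transport hl hinj hΓ
    (F := fun v => ℤ × (A v ⧸ N v) × Fin (n v)) β r
  have hpSC : ∀ v, SC (p v) := by
    refine edge_induction hΓ.connected r ?_ (fun e h => ?_) (fun e h => ?_)
    · rw [hpr]; intro z y d; rfl
    · have : (p (t e) : _ → _) = β e ∘ p (o e) := by rw [hp e]; rfl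
      rw [this]
      exact h.comp (hβ1 e)
    · have : (p (o e) : _ → _) = (β e).symm ∘ p (t e) := by
        rw [hp e]; funext x; simp
      rw [this]
      exact h.comp (hβ1 e).symm
  -- the representations on a common set
  let X : Type := ℤ × (A r ⧸ N r) × Fin (n r)
  let L : ∀ v, A v →* Equiv.Perm (ℤ × (A v ⧸ N v) × Fin (n v)) :=
    fun v => lab (N v) (f v) (hadd v) (l v)
  have hLdef : ∀ v, L v = lab (N v) (f v) (hadd v) (l v) := fun _ => rfl
  let θ : ∀ v, A v →* Equiv.Perm X := fun v =>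
    MonoidHom.mk' (fun g => ((p v).trans (L v g)).trans (p v).symm) (by
      intro g h
      ext1 x
      simp only [Equiv.trans_apply, Equiv.Perm.mul_apply, map_mul, Equiv.apply_symm_apply])
  have hθ : ∀ v g x, θ v g x = (p v).symm (L v g (p v x)) := fun _ _ _ => rfl
  obtain ⟨Θ, hΘ⟩ := huniv X θ (by
    intro e b
    ext1 x
    rw [hθ, hθ, Equiv.symm_apply_eq]
    have h2 : ∀ x, p (t e) x = β e (p (o e) x) := fun x => by rw [hp e]; rfl
    have h3 : ∀ z, p (o e) ((p (t e)).symm z) = (β e).symm z := fun z => by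
      rw [hp e]; simp
    rw [h3, h2, Equiv.eq_symm_apply]
    exact hβ2 e b (p (o e) x))
  let _ : MulAction G X := MulAction.compHom X Θ
  have hsm : ∀ (g : G) (x : X), g • x = Θ g x := fun _ _ => rfl
  have hSC : ∀ g : G, SC (Θ g) := by
    intro g
    refine Subgroup.iSup_induction (fun v => (ι v).range) (C := fun g => SC (Θ g)) (hgen g) ?_ ?_ ?_
    · rintro v _ ⟨a, rfl⟩
      rw [hΘ]
      have : (θ v a : X → X) = (p v).symm ∘ L v a ∘ p v := rfl
      rw [this]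
      exact ((hpSC v).comp (lab_SC _ _ _ _ _)).comp (hpSC v).symm
    · rw [map_one]; intro z y d; rfl
    · intro g h hg hh
      rw [map_mul]
      exact hh.comp hg
  -- stabilisers
  have hstab : ∀ (v : V) (x : X), ∃ S : Set G, S.Finite ∧
      Subgroup.closure S = (ι v).range ⊓ MulAction.stabilizer G x := by
    intro v x
    obtain ⟨S, hS, hSN⟩ := hfk v
    rcases hpv : p v x with ⟨z, s, d⟩
    set a₀ := s.out with ha₀
    refine ⟨ι v '' ((MulAut.conj a₀) '' S), (hS.image _).image _, ?_⟩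
    have h2 : ∀ a : A v, L v a (z, s, d) = (z, s, d) ↔ a ∈ Subgroup.closure ((MulAut.conj a₀) '' S) := by
      intro a
      have h3 : Subgroup.closure ((MulAut.conj a₀) '' S) =
          (Subgroup.closure S).map (MulAut.conj a₀).toMonoidHom := by
        rw [MonoidHom.map_closure]; rfl
      rw [h3, hLdef, lab_apply]
      constructor
      · intro h4
        have h5 : a • s = s := congrArg (fun x => x.2.1) h4
        have h6 := (smul_coset (hNn v) a s).1 h5
        have h7 : z + l v d * kap (N v) (f v) a s = z := congrArg Prod.fst h4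
        have h8 : kap (N v) (f v) a s = 0 := by
          have : l v d * kap (N v) (f v) a s = 0 := by linarith
          exact (mul_eq_zero.1 this).resolve_left (hl0 v d)
        rw [kap_of_mem (hNn v) _ h6] at h8
        refine ⟨a₀⁻¹ * a * a₀, (hSN _).2 ⟨?_, h8⟩, ?_⟩
        · have := (hNn v).conj_mem a h6 a₀⁻¹
          rwa [inv_inv] at this
        · show a₀ * (a₀⁻¹ * a * a₀) * a₀⁻¹ = a
          group
      · rintro ⟨y, hy, rfl⟩
        obtain ⟨hy1, hy2⟩ := (hSN y).1 hy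
        have h4 : (MulAut.conj a₀).toMonoidHom y = a₀ * y * a₀⁻¹ := rfl
        rw [h4]
        have h5 : a₀ * y * a₀⁻¹ ∈ N v := (hNn v).conj_mem y hy1 a₀
        rw [kap_of_mem (hNn v) _ h5, (smul_coset (hNn v) _ s).2 h5, ← ha₀]
        have h6 : a₀⁻¹ * (a₀ * y * a₀⁻¹) * a₀ = y := by group
        rw [h6, hy2, mul_zero, add_zero]
    have h3 : Subgroup.closure (ι v '' ((MulAut.conj a₀) '' S)) =
        (Subgroup.closure ((MulAut.conj a₀) '' S)).map (ι v) := by
      rw [MonoidHom.map_closure]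
    rw [h3]
    ext g
    constructor
    · rintro ⟨a, ha, rfl⟩
      refine ⟨⟨a, rfl⟩, ?_⟩
      show ι v a • x = x
      rw [hsm, hΘ, hθ, Equiv.symm_apply_eq, hpv]
      exact (h2 a).2 ha
    · rintro ⟨⟨a, rfl⟩, ha⟩
      refine ⟨a, (h2 a).1 ?_, rfl⟩
      have h4 : ι v a • x = x := ha
      rw [hsm, hΘ, hθ, Equiv.symm_apply_eq, hpv] at h4
      exact h4
  -- the orbits of the edge groups
  have horb : ∀ e, ∃ Ψ : Set X, Ψ.Finite ∧ ∀ x : X,
      ∃ g ∈ ((ι (o e)).comp (i e)).range, g • x ∈ Ψ := by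
    intro e
    have hfin : Finite ((A (o e) ⧸ N (o e)) × Fin (n (o e))) := inferInstance
    have := Fintype.ofFinite ((A (o e) ⧸ N (o e)) × Fin (n (o e)))
    set sh : (A (o e) ⧸ N (o e)) × Fin (n (o e)) → ℤ := fun d =>
      l (o e) d.2 * f (o e) (d.1.out⁻¹ * i e (c e) ^ (m e : ℤ) * d.1.out) with hsh
    have hsh0 : ∀ d, sh d ≠ 0 := fun d => mul_ne_zero (hl0 _ _)
      ((h0 e).nz _ _ (((h0 e).pow _).2 dvd_rfl) (by exact_mod_cast (h0 e).pos.ne'))
    set Z : ℤ := ∑ d, |sh d| with hZ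
    refine ⟨(p (o e)).symm '' ((Set.Icc 0 Z) ×ˢ Set.univ),
      ((Set.finite_Icc _ _).prod Set.finite_univ).image _, fun x => ?_⟩
    rcases hpx : p (o e) x with ⟨z, s, d⟩
    set a : ℤ := -(z / sh (s, d)) with ha
    refine ⟨ι (o e) (i e (c e ^ ((m e : ℤ) * a))), ⟨_, rfl⟩,
      (z + l (o e) d * kap (N (o e)) (f (o e)) (i e (c e ^ ((m e : ℤ) * a))) s,
        i e (c e ^ ((m e : ℤ) * a)) • s, d), ?_, ?_⟩
    · refine ⟨?_, Set.mem_univ _⟩
      show z + l (o e) d * kap (N (o e)) (f (o e)) (i e (c e ^ ((m e : ℤ) * a))) s ∈ Set.Icc 0 Z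
      rw [(h0 e).kap_pow]
      have h2 : z + l (o e) d * (a * f (o e) (s.out⁻¹ * i e (c e) ^ (m e : ℤ) * s.out)) =
          z % sh (s, d) := by
        rw [Int.emod_def, ha]
        simp only [hsh]
        ring
      rw [h2]
      refine ⟨Int.emod_nonneg _ (hsh0 _), (Int.emod_lt_abs z (hsh0 (s, d))).le.trans ?_⟩
      exact Finset.single_le_sum (f := fun d => |sh d|) (fun _ _ => abs_nonneg _)
        (Finset.mem_univ _)
    · rw [hsm, hΘ, hθ, hpx, hLdef, lab_apply]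
  have hfg : ∀ x₀ : X, (MulAction.stabilizer G x₀).FG := fun x₀ =>
    stab_fg hΓ.connected (fun v => (ι v).range) (fun e => ((ι (o e)).comp (i e)).range)
      (fun e => by rintro _ ⟨b, rfl⟩; exact ⟨i e b, rfl⟩)
      (fun e => by rintro _ ⟨b, rfl⟩; exact ⟨j e b, (hcompat e b).symm⟩)
      hgen horb hstab x₀
  -- the base point
  set d₀ : (A r ⧸ N r) × Fin (n r) := (QuotientGroup.mk 1, ⟨0, hn r⟩) with hd₀
  set x₀ : X := (0, d₀) with hx₀
  have hΘx : ∀ (g : G) (z : ℤ) (d : (A r ⧸ N r) × Fin (n r)),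
      Θ g (z, d) = ((Θ g (0, d)).1 + z, (Θ g (0, d)).2) := by
    intro g z d
    have := hSC g 0 z d
    rwa [zero_add] at this
  let K : Subgroup G :=
    { carrier := {g | (Θ g x₀).2 = d₀}
      mul_mem' := by
        intro g h hg hh
        have hg' : (Θ g x₀).2 = d₀ := hg
        have hh' : (Θ h x₀).2 = d₀ := hh
        show (Θ (g * h) x₀).2 = d₀
        rw [map_mul, Equiv.Perm.mul_apply]
        have : Θ h x₀ = ((Θ h x₀).1, d₀) := Prod.ext rfl hh'
        rw [this, hΘx]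
        exact hg'
      one_mem' := by
        show (Θ 1 x₀).2 = d₀
        rw [map_one]; rfl
      inv_mem' := by
        intro g hg
        have hg' : (Θ g x₀).2 = d₀ := hg
        show (Θ g⁻¹ x₀).2 = d₀
        have h2 : Θ g⁻¹ (Θ g x₀) = x₀ := by
          rw [← Equiv.Perm.mul_apply, ← map_mul, inv_mul_cancel, map_one]; rfl
        have : Θ g x₀ = ((Θ g x₀).1, d₀) := Prod.ext rfl hg'
        rw [this, hΘx] at h2
        exact congrArg Prod.snd h2 }
  have hK : ∀ g, g ∈ K ↔ (Θ g x₀).2 = d₀ := fun g => Iff.rfl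
  refine ⟨K, fun g => (Θ g x₀).1, ?_, ?_, ?_, ?_⟩
  · refine finiteIndex_of_map (T := (A r ⧸ N r) × Fin (n r)) (fun g => (Θ g x₀).2) ?_
    intro g h hgh
    rw [hK]
    have h2 : Θ h x₀ = ((Θ g x₀).1 + ((Θ h x₀).1 - (Θ g x₀).1), (Θ g x₀).2) :=
      Prod.ext (by ring) (by exact hgh.symm)
    rw [map_mul, Equiv.Perm.mul_apply, h2]
    have h3 := hSC g⁻¹ (Θ g x₀).1 ((Θ h x₀).1 - (Θ g x₀).1) (Θ g x₀).2
    rw [h3]
    have h4 : Θ g⁻¹ ((Θ g x₀).1, (Θ g x₀).2) = x₀ := by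
      show Θ g⁻¹ (Θ g x₀) = x₀
      rw [← Equiv.Perm.mul_apply, ← map_mul, inv_mul_cancel, map_one]; rfl
    rw [h4]
  · intro g hg h hh
    rw [hK] at hg hh
    show (Θ (g * h) x₀).1 = (Θ g x₀).1 + (Θ h x₀).1
    rw [map_mul, Equiv.Perm.mul_apply]
    have : Θ h x₀ = ((Θ h x₀).1, d₀) := Prod.ext rfl hh
    rw [this, hΘx]
  · obtain ⟨S, hS⟩ := hfg x₀
    refine ⟨S, S.finite_toSet, fun g => ?_⟩
    rw [hS]
    constructor
    · intro hg
      have h2 : Θ g x₀ = x₀ := hg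
      exact ⟨by rw [hK, h2], by show (Θ g x₀).1 = 0; rw [h2]⟩
    · rintro ⟨h2, h3⟩
      exact Prod.ext h3 h2
  · obtain ⟨y, hy, hy0⟩ := hnt r
    set a : A r := d₀.1.out * y * d₀.1.out⁻¹ with ha
    have haN : a ∈ N r := (hNn r).conj_mem y hy _
    have h2 : Θ (ι r a) x₀ = (l r d₀.2 * f r y, d₀) := by
      rw [hΘ, hθ, hpr]
      show L r a (0, d₀.1, d₀.2) = _
      rw [hLdef, lab_apply, kap_of_mem (hNn r) _ haN, (smul_coset (hNn r) _ _).2 haN]
      have : d₀.1.out⁻¹ * a * d₀.1.out = y := by rw [ha]; group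
      rw [this, zero_add]
    refine ⟨ι r a, ?_, ?_⟩
    · rw [hK, h2]
    · show (Θ (ι r a) x₀).1 ≠ 0
      rw [h2]
      exact mul_ne_zero (hl0 _ _) hy0

end Pool.Agent.Q14.TG
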