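import Pool.Agent.Q14.TG.Core

/-! Virtual fibering of trees of virtually fibered groups. -/

set_option autoImplicit false

namespace Pool.Agent.Q14.TG

open Subgroup

/-- `H` is fibered: there is a surjective homomorphism onto `ℤ` with finitely generated kernel -/
def Fibered (H : Type*) [Group H] : Prop :=
  ∃ φ : H →* Multiplicative ℤ, Function.Surjective φ ∧ φ.ker.FG

/-- some finite index subgroup is fibered -/
def VirtuallyFibered (H : Type*) [Group H] : Prop :=
  ∃ K : Subgroup H, K.FiniteIndex ∧ Fibered K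

/-- infinite with a cyclic subgroup of finite index -/
def InfiniteVirtuallyCyclic (H : Type*) [Group H] : Prop :=
  Infinite H ∧ ∃ c : H, (zpowers c).FiniteIndex

theorem of_fibered {G : Type*} [Group G] (K : Subgroup G) (hK : K.FiniteIndex)
    (φ : K →* Multiplicative ℤ) (hφ : φ ≠ 1) (hfg : φ.ker.FG) :
    ∃ (K : Subgroup G) (φ : G → ℤ), K.FiniteIndex ∧ Add K φ ∧ FK K φ ∧ ∃ x ∈ K, φ x ≠ 0 := by
  classical
  obtain ⟨S, hS⟩ := hfg
  set f : G → ℤ := fun x => if h : x ∈ K then Multiplicative.toAdd (φ ⟨x, h⟩) else 0 with hf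
  have hfx : ∀ (x : G) (h : x ∈ K), f x = Multiplicative.toAdd (φ ⟨x, h⟩) := by
    intro x h
    simp only [hf, dif_pos h]
  refine ⟨K, f, hK, ?_, ?_, ?_⟩
  · intro x hx y hy
    rw [hfx _ hx, hfx _ hy, hfx _ (K.mul_mem hx hy), ← toAdd_mul, ← map_mul]
    rfl
  · refine ⟨(fun x : K => (x : G)) '' S, S.finite_toSet.image _, fun x => ?_⟩
    have h3 : Subgroup.closure ((fun x : K => (x : G)) '' (S : Set K)) =
        (Subgroup.closure (S : Set K)).map K.subtype := by
      rw [MonoidHom.map_closure]; rfl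
    rw [h3, hS]
    constructor
    · rintro ⟨y, hy, rfl⟩
      refine ⟨y.2, ?_⟩
      show f (y : G) = 0
      rw [hfx _ y.2]
      have : φ y = 1 := hy
      rw [show (⟨(y : G), y.2⟩ : K) = y from rfl, this]
      rfl
    · rintro ⟨hx, hx0⟩
      refine ⟨⟨x, hx⟩, ?_, rfl⟩
      rw [hfx _ hx] at hx0
      exact hx0
  · by_contra hcon
    push Not at hcon
    apply hφ
    ext x
    have := hcon x x.2
    rw [hfx _ x.2] at this
    exact this

theorem to_fibered {G : Type*} [Group G]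
    (h : ∃ (K : Subgroup G) (φ : G → ℤ), K.FiniteIndex ∧ Add K φ ∧ FK K φ ∧ ∃ x ∈ K, φ x ≠ 0) :
    VirtuallyFibered G := by
  classical
  obtain ⟨K, φ, hK, hφ, ⟨S, hS, hSK⟩, hne⟩ := h
  obtain ⟨t, ht, htpos, hgen⟩ := exists_gen hφ hne
  have hdiv : ∀ x ∈ K, φ x / φ t * φ t = φ x := by
    intro x hx
    obtain ⟨k, hk⟩ := hgen x hx
    exact Int.ediv_mul_cancel ⟨k, by rw [hk]; ring⟩
  have hadd : ∀ x ∈ K, ∀ y ∈ K, φ (x * y) / φ t = φ x / φ t + φ y / φ t := by
    intro x hx y hy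
    have h1 := hdiv _ (K.mul_mem hx hy)
    have h2 := hdiv _ hx
    have h3 := hdiv _ hy
    have h4 := hφ x hx y hy
    have h5 : (φ (x * y) / φ t) * φ t = (φ x / φ t + φ y / φ t) * φ t := by
      rw [add_mul, h1, h2, h3, h4]
    exact mul_right_cancel₀ htpos.ne' h5
  set ψ : K →* Multiplicative ℤ := MonoidHom.mk' (fun x => Multiplicative.ofAdd (φ x / φ t)) (by
    intro x y
    rw [← ofAdd_add, ← hadd _ x.2 _ y.2]
    rfl) with hψ
  have hψx : ∀ x : K, ψ x = Multiplicative.ofAdd (φ x / φ t) := fun _ => rfl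
  refine ⟨K, hK, ψ, ?_, ?_⟩
  · intro z
    refine ⟨⟨t, ht⟩ ^ (Multiplicative.toAdd z), ?_⟩
    rw [map_zpow, hψx]
    show (Multiplicative.ofAdd (φ t / φ t)) ^ (Multiplicative.toAdd z) = z
    rw [Int.ediv_self htpos.ne', ← ofAdd_zsmul]
    simp
  · have hSfin : (((↑) : K → G) ⁻¹' S).Finite := hS.preimage Subtype.val_injective.injOn
    refine ⟨hSfin.toFinset, ?_⟩
    rw [Set.Finite.coe_toFinset]
    apply Subgroup.map_injective K.subtype_injective
    rw [MonoidHom.map_closure]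
    have h1 : K.subtype '' (((↑) : K → G) ⁻¹' S) = S := by
      ext x
      constructor
      · rintro ⟨y, hy, rfl⟩; exact hy
      · intro hx
        have := (hSK x).1 (Subgroup.subset_closure hx)
        exact ⟨⟨x, this.1⟩, hx, rfl⟩
    rw [h1]
    ext x
    rw [hSK]
    constructor
    · rintro ⟨h2, h3⟩
      refine ⟨⟨x, h2⟩, ?_, rfl⟩
      show ψ ⟨x, h2⟩ = 1
      rw [hψx]
      show Multiplicative.ofAdd (φ x / φ t) = 1
      rw [h3, Int.zero_ediv]
      rfl
    · rintro ⟨y, hy, rfl⟩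
      refine ⟨y.2, ?_⟩
      have h2 : ψ y = 1 := hy
      rw [hψx] at h2
      have h3 : φ y / φ t = 0 := h2
      have h4 := hdiv _ y.2
      rw [h3, zero_mul] at h4
      exact h4.symm

theorem infinite_order {B : Type*} [Group B] [Infinite B] {c : B} (hc : (zpowers c).FiniteIndex) :
    ∀ n : ℤ, c ^ n = 1 → n = 0 := by
  have h1 : Nat.card (zpowers c) * (zpowers c).index = Nat.card B := Subgroup.card_mul_index _
  rw [Nat.card_eq_zero_of_infinite (α := B)] at h1
  have h2 : Nat.card (zpowers c) = 0 := by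
    rcases Nat.mul_eq_zero.1 h1 with h | h
    · exact h
    · exact absurd h hc.index_ne_zero
  rw [Nat.card_zpowers] at h2
  intro n hn
  have h3 : ¬ IsOfFinOrder c := orderOf_eq_zero_iff.1 h2
  have h4 := injective_zpow_iff_not_isOfFinOrder.2 h3
  exact h4 (by simpa using hn)

section flags

variable {V E : Type} (o t : E → V)

/-- the end point of a flag -/
def ep : E × Bool → V
  | (e, false) => o e
  | (e, true) => t e

variable {o t} {A : V → Type} [∀ v, Group (A v)] {B : E → Type} [∀ e, Group (B e)]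

/-- the embedding of a flag -/
def kx (i : ∀ e, B e →* A (o e)) (j : ∀ e, B e →* A (t e)) : ∀ x : E × Bool, B x.1 →* A (ep o t x)
  | (e, false) => i e
  | (e, true) => j e

/-- the embedding of a flag at `v` -/
def kxv (i : ∀ e, B e →* A (o e)) (j : ∀ e, B e →* A (t e)) (v : V)
    (x : {x : E × Bool // ep o t x = v}) : B x.1.1 →* A v :=
  Eq.rec (motive := fun v _ => B x.1.1 →* A v) (kx i j x.1) x.2

end flags

theorem tree_fibered {V E : Type} [Finite V] [Finite E] {o t : E → V} (hl : ∀ e, o e ≠ t e)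
    (hinj : ∀ e e', s(o e, t e) = s(o e', t e') → e = e') (hΓ : (graph o t).IsTree)
    {A : V → Type} [∀ v, Group (A v)] {B : E → Type} [∀ e, Group (B e)]
    (i : ∀ e, B e →* A (o e)) (j : ∀ e, B e →* A (t e))
    (hi : ∀ e, Function.Injective (i e)) (hj : ∀ e, Function.Injective (j e))
    (hA : ∀ v, ∃ (K : Subgroup (A v)) (φ : A v → ℤ), K.FiniteIndex ∧ Add K φ ∧ FK K φ ∧
      ∃ x ∈ K, φ x ≠ 0)
    (hB : ∀ e, InfiniteVirtuallyCyclic (B e))
    (hri : ∀ e, IsVirtualRetract (i e).range) (hrj : ∀ e, IsVirtualRetract (j e).range)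
    {G : Type*} [Group G] (ι : ∀ v, A v →* G)
    (hcompat : ∀ e b, ι (o e) (i e b) = ι (t e) (j e b))
    (hgen : ∀ g : G, g ∈ ⨆ v, (ι v).range)
    (huniv : ∀ (X : Type) (θ : ∀ v, A v →* Equiv.Perm X),
      (∀ e b, θ (o e) (i e b) = θ (t e) (j e b)) →
      ∃ Θ : G →* Equiv.Perm X, ∀ v x, Θ (ι v x) = θ v x) :
    ∃ (K : Subgroup G) (φ : G → ℤ), K.FiniteIndex ∧ Add K φ ∧ FK K φ ∧ ∃ x ∈ K, φ x ≠ 0 := by
  classical
  choose hBi c hc using hB
  have hord : ∀ e (n : ℤ), c e ^ n = 1 → n = 0 := fun e => by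
    have := hBi e
    exact infinite_order (hc e)
  -- prepare the vertex groups
  have hprep := fun v => prep (G := A v) (J := {x : E × Bool // ep o t x = v})
    (B := fun x => B x.1.1)
    (kxv i j v) (fun x => c x.1.1)
    (by
      rintro ⟨⟨e, b⟩, rfl⟩
      cases b
      · exact functional (i e) (hi e) (hri e) (c e) (hord e) (hc e)
      · exact functional (j e) (hj e) (hrj e) (c e) (hord e) (hc e)) (hA v)
  choose μ f hμ hN using hprep
  obtain ⟨k, hk0, hk⟩ := exists_scale hl hinj hΓ (fun e => μ (o e) ⟨(e, false), rfl⟩)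
    (fun e => μ (t e) ⟨(e, true), rfl⟩) (fun e => hμ _ _) (fun e => hμ _ _)
  choose N hN1 hN2 hN3 hN4 hN5 hN6 hN7 hN8 using fun v => hN v (k v) (hk0 v)
  refine core hl hinj hΓ i j ι hcompat hgen huniv N f c
    (fun e => k (o e) * μ (o e) ⟨(e, false), rfl⟩) ?_ ?_ hN1 hN2 hN3 hN4 hN5
  · intro e
    exact ⟨hN1 _, hN2 _, hN3 _, hN6 (o e) ⟨(e, false), rfl⟩, hN7 (o e) ⟨(e, false), rfl⟩,
      hN8 (o e) ⟨(e, false), rfl⟩, Nat.mul_pos (hk0 _) (hμ _ _)⟩
  · intro e
    show FlagOK (N (t e)) (j e) (c e) (f (t e)) (k (o e) * μ (o e) ⟨(e, false), rfl⟩)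
    have h1 : k (o e) * μ (o e) ⟨(e, false), rfl⟩ = k (t e) * μ (t e) ⟨(e, true), rfl⟩ := hk e
    rw [h1]
    exact ⟨hN1 _, hN2 _, hN3 _, hN6 (t e) ⟨(e, true), rfl⟩, hN7 (t e) ⟨(e, true), rfl⟩,
      hN8 (t e) ⟨(e, true), rfl⟩, Nat.mul_pos (hk0 _) (hμ _ _)⟩

end Pool.Agent.Q14.TG
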