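import Mathlib

/-! Transport of a family of types along the edges of a tree. -/

set_option autoImplicit false

namespace Pool.Agent.Q14.TG

open SimpleGraph

section simple

variable {V : Type*} {Γ : SimpleGraph V} {F : V → Type*}

/-- transport along a walk -/
def tr (β : ∀ u v, Γ.Adj u v → (F u ≃ F v)) : ∀ {u v : V}, Γ.Walk u v → (F u ≃ F v)
  | _, _, Walk.nil => Equiv.refl _
  | _, _, Walk.cons h p => (β _ _ h).trans (tr β p)

theorem tr_append (β : ∀ u v, Γ.Adj u v → (F u ≃ F v)) {u v w : V} (p : Γ.Walk u v)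
    (q : Γ.Walk v w) : tr β (p.append q) = (tr β p).trans (tr β q) := by
  induction p with
  | nil => rfl
  | cons h p ih => simp only [Walk.cons_append, tr, ih]; rfl

theorem tree_transport (hΓ : Γ.IsTree) (β : ∀ u v, Γ.Adj u v → (F u ≃ F v))
    (hβ : ∀ u v (h : Γ.Adj u v), β v u h.symm = (β u v h).symm) (r : V) :
    ∃ p : ∀ v, F r ≃ F v, p r = Equiv.refl _ ∧
      ∀ u v (h : Γ.Adj u v), p v = (p u).trans (β u v h) := by
  classical
  have hex : ∀ v, ∃! p : Γ.Walk r v, p.IsPath := fun v => hΓ.existsUnique_path r v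
  choose P hP hPu using hex
  refine ⟨fun v => tr β (P v), ?_, ?_⟩
  · have : P r = Walk.nil := (hPu r Walk.nil Walk.IsPath.nil).symm
    show tr β (P r) = _
    rw [this]
    rfl
  · intro u v h
    show tr β (P v) = (tr β (P u)).trans (β u v h)
    by_cases hv : v ∈ (P u).support
    · have h1 : (P u).takeUntil v hv = P v := hPu v _ ((hP u).takeUntil hv)
      have h2 : ((P u).dropUntil v hv) = Walk.cons h.symm Walk.nil := by
        have ha : ((P u).dropUntil v hv).IsPath := (hP u).dropUntil hv
        have hb : (Walk.cons h.symm Walk.nil : Γ.Walk v u).IsPath := by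
          simp [Walk.cons_isPath_iff, h.ne']
        obtain ⟨c, -, hc⟩ := hΓ.existsUnique_path v u
        rw [hc _ ha, hc _ hb]
      have h3 : P u = (P v).append (Walk.cons h.symm Walk.nil) := by
        rw [← h1, ← h2, Walk.take_spec]
      rw [h3, tr_append]
      ext x
      simp only [tr, Equiv.trans_apply, Equiv.refl_apply, hβ u v h, Equiv.apply_symm_apply]
    · have h1 : ((P u).concat h).IsPath := (hP u).concat hv h
      rw [← hPu v _ h1, Walk.concat_eq_append, tr_append]
      ext x
      simp only [tr, Equiv.trans_apply, Equiv.refl_apply]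

end simple

section edges

variable {V E : Type*} (o t : E → V)

/-- the graph with vertex set `V` and one edge between `o e` and `t e` for every `e` -/
def graph : SimpleGraph V := SimpleGraph.fromEdgeSet (Set.range fun e => s(o e, t e))

variable {o t}

theorem graph_adj {u v : V} : (graph o t).Adj u v ↔ (∃ e, s(o e, t e) = s(u, v)) ∧ u ≠ v := by
  simp [graph, SimpleGraph.fromEdgeSet_adj]

theorem adj_edge (hl : ∀ e, o e ≠ t e) (e : E) : (graph o t).Adj (o e) (t e) :=
  graph_adj.2 ⟨⟨e, rfl⟩, hl e⟩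

/-- transport along a tree given by its edges -/
theorem edge_transport (hl : ∀ e, o e ≠ t e)
    (hinj : ∀ e e', s(o e, t e) = s(o e', t e') → e = e') (hΓ : (graph o t).IsTree)
    {F : V → Type*} (β : ∀ e, F (o e) ≃ F (t e)) (r : V) :
    ∃ p : ∀ v, F r ≃ F v, p r = Equiv.refl _ ∧ ∀ e, p (t e) = (p (o e)).trans (β e) := by
  classical
  -- the transport for an adjacent pair
  have hB : ∀ u v, (graph o t).Adj u v → ∃ b : F u ≃ F v,
      (∀ e (h1 : o e = u) (h2 : t e = v), b = (h1 ▸ h2 ▸ β e : F u ≃ F v)) ∧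
      (∀ e (h1 : t e = u) (h2 : o e = v), b = ((h2 ▸ h1 ▸ β e : F v ≃ F u)).symm) := by
    intro u v h
    obtain ⟨⟨e, he⟩, hne⟩ := graph_adj.1 h
    rcases Sym2.eq_iff.1 he with ⟨h1, h2⟩ | ⟨h1, h2⟩
    · subst h1 h2
      refine ⟨β e, ?_, ?_⟩
      · intro e' h1 h2
        have : e' = e := hinj _ _ (by rw [h1, h2])
        subst this
        rfl
      · intro e' h1 h2
        have : e' = e := hinj _ _ (by rw [h1, h2]; exact Sym2.eq_swap)
        subst this
        exact absurd h2 hne
    · subst h1 h2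
      refine ⟨(β e).symm, ?_, ?_⟩
      · intro e' h1 h2
        have : e' = e := hinj _ _ (by rw [h1, h2]; exact Sym2.eq_swap)
        subst this
        exact absurd h1 (hne.symm)
      · intro e' h1 h2
        have : e' = e := hinj _ _ (by rw [h1, h2])
        subst this
        rfl
  choose B hB1 hB2 using hB
  have hsymm : ∀ u v (h : (graph o t).Adj u v), B v u h.symm = (B u v h).symm := by
    intro u v h
    obtain ⟨⟨e, he⟩, hne⟩ := graph_adj.1 h
    rcases Sym2.eq_iff.1 he with ⟨h1, h2⟩ | ⟨h1, h2⟩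
    · subst h1 h2
      rw [hB2 _ _ h.symm e rfl rfl, hB1 _ _ h e rfl rfl]
    · subst h1 h2
      rw [hB1 _ _ h.symm e rfl rfl, hB2 _ _ h e rfl rfl]
      rfl
  obtain ⟨p, hp1, hp2⟩ := tree_transport hΓ B hsymm r
  refine ⟨p, hp1, fun e => ?_⟩
  rw [hp2 _ _ (adj_edge hl e), hB1 _ _ (adj_edge hl e) e rfl rfl]

/-- induction over the vertices of a connected graph given by its edges -/
theorem edge_induction (hΓ : (graph o t).Connected) {Q : V → Prop} (r : V) (h0 : Q r)
    (h1 : ∀ e, Q (o e) → Q (t e)) (h2 : ∀ e, Q (t e) → Q (o e)) : ∀ v, Q v := by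
  intro v
  obtain ⟨w⟩ := hΓ.preconnected r v
  induction w with
  | nil => exact h0
  | cons h w ih =>
    refine ih ?_
    obtain ⟨⟨e, he⟩, hne⟩ := graph_adj.1 h
    rcases Sym2.eq_iff.1 he with ⟨h3, h4⟩ | ⟨h3, h4⟩
    · subst h3 h4; exact h1 e h0
    · subst h3 h4; exact h2 e h0

/-- `v` lies on the side of the origin of the edge `e` -/
def side (o t : E → V) (e : E) (v : V) : Prop :=
  ((graph o t).deleteEdges {s(o e, t e)}).Reachable (o e) v

theorem side_o (e : E) : side o t e (o e) := SimpleGraph.Reachable.refl _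

theorem side_t (hl : ∀ e, o e ≠ t e) (hΓ : (graph o t).IsTree) (e : E) : ¬ side o t e (t e) := by
  have h := SimpleGraph.isAcyclic_iff_forall_adj_isBridge.1 hΓ.isAcyclic (adj_edge hl e)
  rw [SimpleGraph.isBridge_iff] at h
  exact h

theorem side_edge (hl : ∀ e, o e ≠ t e)
    (hinj : ∀ e e', s(o e, t e) = s(o e', t e') → e = e') {e e' : E} (hne : e' ≠ e) :
    side o t e (o e') ↔ side o t e (t e') := by
  have hadj : ((graph o t).deleteEdges {s(o e, t e)}).Adj (o e') (t e') := by
    rw [SimpleGraph.deleteEdges_adj]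
    exact ⟨adj_edge hl e', fun h => hne (hinj _ _ h)⟩
  exact ⟨fun h => h.trans hadj.reachable, fun h => h.trans hadj.symm.reachable⟩

end edges

end Pool.Agent.Q14.TG
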