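import Pool.Agent.Q14.TG.Prep
import Pool.Agent.Q14.TG.Tree

/-! Labelled permutation representations and their matching along an edge. -/

set_option autoImplicit false

namespace Pool.Agent.Q14.TG

open Subgroup

theorem equi_half {H X Y I : Type*} [Group H] (a : H →* Equiv.Perm X) (b : H →* Equiv.Perm Y)
    (x : I → X) (y : I → Y) (hx : ∀ z, ∃ i h, a h (x i) = z)
    (hx' : ∀ i i' h, a h (x i) = x i' → i = i')
    (hst : ∀ i h, a h (x i) = x i → b h (y i) = y i) :
    ∃ β : X → Y, ∀ i h, β (a h (x i)) = b h (y i) := by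
  classical
  choose i h hh using hx
  refine ⟨fun z => b (h z) (y (i z)), fun j g => ?_⟩
  have h1 := hh (a g (x j))
  have h2 : i (a g (x j)) = j := by
    refine hx' _ _ (g⁻¹ * h (a g (x j))) ?_
    rw [map_mul, Equiv.Perm.mul_apply, h1, ← Equiv.Perm.mul_apply, ← map_mul]
    simp
  show b (h (a g (x j))) (y (i (a g (x j)))) = b g (y j)
  rw [h2] at h1 ⊢
  have h3 : a (g⁻¹ * h (a g (x j))) (x j) = x j := by
    rw [map_mul, Equiv.Perm.mul_apply, h1, ← Equiv.Perm.mul_apply, ← map_mul]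
    simp
  have h4 := hst j _ h3
  have h5 : h (a g (x j)) = g * (g⁻¹ * h (a g (x j))) := by group
  rw [h5, map_mul, Equiv.Perm.mul_apply, h4]

/-- two actions with the same stabilisers on representatives of the orbits are isomorphic -/
theorem equi_match {H X Y I : Type*} [Group H] (a : H →* Equiv.Perm X) (b : H →* Equiv.Perm Y)
    (x : I → X) (y : I → Y) (hx : ∀ z, ∃ i h, a h (x i) = z)
    (hx' : ∀ i i' h, a h (x i) = x i' → i = i') (hy : ∀ z, ∃ i h, b h (y i) = z)
    (hy' : ∀ i i' h, b h (y i) = y i' → i = i')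
    (hst : ∀ i h, a h (x i) = x i ↔ b h (y i) = y i) :
    ∃ β : X ≃ Y, ∀ h z, β (a h z) = b h (β z) := by
  classical
  obtain ⟨β, hβ⟩ := equi_half a b x y hx hx' fun i h => (hst i h).1
  obtain ⟨γ, hγ⟩ := equi_half b a y x hy hy' fun i h => (hst i h).2
  refine ⟨⟨β, γ, ?_, ?_⟩, ?_⟩
  · intro z
    obtain ⟨i, h, rfl⟩ := hx z
    rw [hβ, hγ]
  · intro z
    obtain ⟨i, h, rfl⟩ := hy z
    rw [hγ, hβ]
  · intro h z
    obtain ⟨i, g, rfl⟩ := hx z
    show β (a h (a g (x i))) = b h (β (a g (x i)))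
    rw [hβ, ← Equiv.Perm.mul_apply, ← map_mul, hβ, map_mul, Equiv.Perm.mul_apply]

section lab

variable {G : Type*} [Group G]

/-- the cocycle -/
noncomputable def kap (N : Subgroup G) (f : G → ℤ) (g : G) (p : G ⧸ N) : ℤ :=
  f ((g • p).out⁻¹ * g * p.out)

theorem kap_mem (N : Subgroup G) (g : G) (p : G ⧸ N) : (g • p).out⁻¹ * g * p.out ∈ N := by
  rw [mul_assoc]
  apply QuotientGroup.eq.1
  rw [QuotientGroup.out_eq']
  conv_lhs => rw [← QuotientGroup.out_eq' p]
  rfl

theorem kap_mul {N : Subgroup G} {f : G → ℤ} (hf : Add N f) (g h : G) (p : G ⧸ N) :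
    kap N f (g * h) p = kap N f g (h • p) + kap N f h p := by
  unfold kap
  rw [← hf _ (kap_mem N g (h • p)) _ (kap_mem N h p), mul_smul]
  congr 1
  group

theorem kap_one {N : Subgroup G} {f : G → ℤ} (hf : Add N f) (p : G ⧸ N) : kap N f 1 p = 0 := by
  unfold kap
  rw [one_smul, mul_one, inv_mul_cancel, hf.one]

variable {M : Type*}

/-- the labelled permutation representation -/
noncomputable def lab (N : Subgroup G) (f : G → ℤ) (hf : Add N f) (l : M → ℤ) :
    G →* Equiv.Perm (ℤ × (G ⧸ N) × M) where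
  toFun g :=
    { toFun := fun x => (x.1 + l x.2.2 * kap N f g x.2.1, g • x.2.1, x.2.2)
      invFun := fun x => (x.1 + l x.2.2 * kap N f g⁻¹ x.2.1, g⁻¹ • x.2.1, x.2.2)
      left_inv := fun x => by
        ext1
        · show x.1 + l x.2.2 * kap N f g x.2.1 + l x.2.2 * kap N f g⁻¹ (g • x.2.1) = x.1
          rw [add_assoc, ← mul_add, add_comm (kap N f g x.2.1), ← kap_mul hf, inv_mul_cancel,
            kap_one hf]
          ring
        · ext1
          · exact inv_smul_smul _ _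
          · rfl
      right_inv := fun x => by
        ext1
        · show x.1 + l x.2.2 * kap N f g⁻¹ x.2.1 + l x.2.2 * kap N f g (g⁻¹ • x.2.1) = x.1
          rw [add_assoc, ← mul_add, add_comm (kap N f g⁻¹ x.2.1), ← kap_mul hf, mul_inv_cancel,
            kap_one hf]
          ring
        · ext1
          · exact smul_inv_smul _ _
          · rfl }
  map_one' := by
    ext x
    · show x.1 + l x.2.2 * kap N f 1 x.2.1 = x.1
      rw [kap_one hf]; ring
    · show (1 : G) • x.2.1 = x.2.1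
      exact one_smul _ _
    · rfl
  map_mul' g h := by
    ext x
    · show x.1 + l x.2.2 * kap N f (g * h) x.2.1 =
        x.1 + l x.2.2 * kap N f h x.2.1 + l x.2.2 * kap N f g (h • x.2.1)
      rw [kap_mul hf]; ring
    · show (g * h) • x.2.1 = g • h • x.2.1
      exact mul_smul _ _ _
    · rfl

theorem lab_apply (N : Subgroup G) (f : G → ℤ) (hf : Add N f) (l : M → ℤ) (g : G) (z : ℤ)
    (p : G ⧸ N) (m : M) : lab N f hf l g (z, p, m) = (z + l m * kap N f g p, g • p, m) := rfl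

theorem smul_coset {N : Subgroup G} (hN : N.Normal) (g : G) (p : G ⧸ N) : g • p = p ↔ g ∈ N := by
  conv_lhs => rw [← QuotientGroup.out_eq' p]
  have h1 : g • (QuotientGroup.mk p.out : G ⧸ N) = QuotientGroup.mk (g * p.out) := rfl
  rw [h1, eq_comm, QuotientGroup.eq, ← mul_assoc]
  constructor
  · intro h
    have := hN.conj_mem _ h p.out
    convert this using 1
    group
  · intro h
    have := hN.conj_mem _ h p.out⁻¹
    rwa [inv_inv] at this

theorem kap_of_mem {N : Subgroup G} (hN : N.Normal) (f : G → ℤ) {g : G} (hg : g ∈ N)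
    (p : G ⧸ N) : kap N f g p = f (p.out⁻¹ * g * p.out) := by
  unfold kap
  rw [(smul_coset hN g p).2 hg]

/-- equivalences commuting with the shifts -/
def SC {D D' : Type*} (β : ℤ × D → ℤ × D') : Prop :=
  ∀ (z y : ℤ) (d : D), β (z + y, d) = ((β (z, d)).1 + y, (β (z, d)).2)

theorem SC.comp {D D' D'' : Type*} {β : ℤ × D → ℤ × D'} {γ : ℤ × D' → ℤ × D''} (h : SC β)
    (h' : SC γ) : SC (γ ∘ β) := by
  intro z y d
  show γ (β (z + y, d)) = _
  rw [h z y d, h' (β (z, d)).1 y (β (z, d)).2]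
  rfl

theorem SC.symm {D D' : Type*} {β : ℤ × D ≃ ℤ × D'} (h : SC β) : SC β.symm := by
  intro z y d
  rw [Equiv.symm_apply_eq]
  have := h (β.symm (z, d)).1 y (β.symm (z, d)).2
  rw [this]
  simp

theorem lab_SC (N : Subgroup G) (f : G → ℤ) (hf : Add N f) (l : M → ℤ) (g : G) :
    SC (lab N f hf l g) := by
  rintro z y ⟨p, m⟩
  rw [lab_apply, lab_apply]
  ext1
  · show z + y + l m * kap N f g p = z + l m * kap N f g p + y
    ring
  · rfl

end lab

section flag

variable {G B : Type*} [Group G] [Group B]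

/-- the orbits of `B` on `G ⧸ N` -/
def orbS (N : Subgroup G) (k : B →* G) : Setoid (G ⧸ N) where
  r p q := ∃ b, k b • p = q
  iseqv :=
    { refl := fun p => ⟨1, by rw [map_one, one_smul]⟩
      symm := fun {p q} ⟨b, hb⟩ => ⟨b⁻¹, by rw [map_inv, inv_smul_eq_iff, hb]⟩
      trans := fun {p q r} ⟨b, hb⟩ ⟨c, hc⟩ => ⟨c * b, by rw [map_mul, mul_smul, hb, hc]⟩ }

/-- the set of orbits -/
abbrev Orb (N : Subgroup G) (k : B →* G) : Type _ := Quotient (orbS N k)

/-- the weight of an orbit -/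
noncomputable def wt (N : Subgroup G) (k : B →* G) (c : B) (f : G → ℤ) (m : ℕ) (t : Orb N k) : ℤ :=
  f (t.out.out⁻¹ * (k c) ^ (m : ℤ) * t.out.out)

/-- the action of `ℤ × B` on the labelled set -/
noncomputable def labB {M : Type*} (N : Subgroup G) (k : B →* G) (f : G → ℤ) (hf : Add N f)
    (l : M → ℤ) : Multiplicative ℤ × B →* Equiv.Perm (ℤ × (G ⧸ N) × M) :=
  MonoidHom.mk' (fun h => (Equiv.prodCongr (Equiv.addRight (Multiplicative.toAdd h.1))
    (Equiv.refl _)) * lab N f hf l (k h.2)) (by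
      rintro ⟨q, b⟩ ⟨q', b'⟩
      ext x
      · obtain ⟨z, p, m⟩ := x
        show z + l m * kap N f (k (b * b')) p + (Multiplicative.toAdd (q * q')) =
          z + l m * kap N f (k b') p + Multiplicative.toAdd q' +
            l m * kap N f (k b) (k b' • p) + Multiplicative.toAdd q
        rw [map_mul, kap_mul hf, toAdd_mul]
        ring
      · obtain ⟨z, p, m⟩ := x
        show k (b * b') • p = k b • k b' • p
        rw [map_mul, mul_smul]
      · rfl)

theorem labB_apply {M : Type*} (N : Subgroup G) (k : B →* G) (f : G → ℤ) (hf : Add N f)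
    (l : M → ℤ) (q : ℤ) (b : B) (z : ℤ) (p : G ⧸ N) (m : M) :
    labB N k f hf l (Multiplicative.ofAdd q, b) (z, p, m) =
      (z + l m * kap N f (k b) p + q, k b • p, m) := rfl

/-- data of a flag: everything needed about the image of an edge group in a vertex group -/
structure FlagOK (N : Subgroup G) (k : B →* G) (c : B) (f : G → ℤ) (m : ℕ) : Prop where
  normal : N.Normal
  fin : N.FiniteIndex
  add : Add N f
  pow : ∀ i : ℤ, k c ^ i ∈ N ↔ (m : ℤ) ∣ i
  zp : ∀ b, k b ∈ N → b ∈ zpowers c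
  nz : ∀ (g : G) (i : ℤ), k c ^ i ∈ N → i ≠ 0 → f (g⁻¹ * k c ^ i * g) ≠ 0
  pos : 0 < m

variable {N : Subgroup G} {k : B →* G} {c : B} {f : G → ℤ} {m : ℕ}

theorem FlagOK.wt_ne (h : FlagOK N k c f m) (t : Orb N k) : wt N k c f m t ≠ 0 :=
  h.nz _ _ ((h.pow _).2 dvd_rfl) (by exact_mod_cast h.pos.ne')

theorem FlagOK.kap_pow (h : FlagOK N k c f m) (j : ℤ) (p : G ⧸ N) :
    kap N f (k (c ^ ((m : ℤ) * j))) p = j * f (p.out⁻¹ * k c ^ (m : ℤ) * p.out) := by
  have h1 : k c ^ (m : ℤ) ∈ N := (h.pow _).2 dvd_rfl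
  have h2 : k (c ^ ((m : ℤ) * j)) ∈ N := by rw [map_zpow]; exact (h.pow _).2 ⟨j, rfl⟩
  rw [kap_of_mem h.normal f h2, map_zpow, zpow_mul]
  have h3 : p.out⁻¹ * k c ^ (m : ℤ) * p.out ∈ N := by
    have := h.normal.conj_mem _ h1 p.out⁻¹
    rwa [inv_inv] at this
  rw [← h.add.zpow h3]
  congr 1
  have := conj_zpow (i := j) (a := p.out⁻¹) (b := k c ^ (m : ℤ))
  rw [inv_inv] at this
  exact this.symm

theorem FlagOK.stab {M : Type*} (h : FlagOK N k c f m) (l : M → ℤ) (q : ℤ) (b : B)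
    (t : Orb N k) (i : M) :
    labB N k f h.add l (Multiplicative.ofAdd q, b) (0, t.out, i) = (0, t.out, i) ↔
      ∃ j : ℤ, b = c ^ ((m : ℤ) * j) ∧ q = - (wt N k c f m t * l i) * j := by
  rw [labB_apply]
  constructor
  · intro h1
    have h2 : 0 + l i * kap N f (k b) t.out + q = 0 := congrArg Prod.fst h1
    have h3 : k b • t.out = t.out := congrArg (fun x => x.2.1) h1
    have h4 := (smul_coset h.normal _ _).1 h3
    obtain ⟨a, rfl⟩ := Subgroup.mem_zpowers_iff.1 (h.zp b h4)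
    rw [map_zpow] at h4
    obtain ⟨j, rfl⟩ := (h.pow a).1 h4
    refine ⟨j, rfl, ?_⟩
    rw [h.kap_pow] at h2
    unfold wt
    linarith
  · rintro ⟨j, rfl, rfl⟩
    have h2 : k (c ^ ((m : ℤ) * j)) ∈ N := by rw [map_zpow]; exact (h.pow _).2 ⟨j, rfl⟩
    rw [h.kap_pow, (smul_coset h.normal _ _).2 h2]
    ext1
    · show 0 + l i * (j * _) + -(wt N k c f m t * l i) * j = 0
      unfold wt
      ring
    · rfl

end flag

/-- the matching of two flags -/
theorem flag_match {G G' B : Type*} [Group G] [Group G'] [Group B] {N : Subgroup G}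
    {N' : Subgroup G'} {k : B →* G} {k' : B →* G'} {c : B} {f : G → ℤ} {f' : G' → ℤ} {m : ℕ}
    (h : FlagOK N k c f m) (h' : FlagOK N' k' c f' m) {M M' : Type*} (l : M → ℤ) (l' : M' → ℤ)
    (e : Orb N k × M ≃ Orb N' k' × M')
    (he : ∀ x, wt N' k' c f' m (e x).1 * l' (e x).2 = wt N k c f m x.1 * l x.2) :
    ∃ β : (ℤ × (G ⧸ N) × M) ≃ (ℤ × (G' ⧸ N') × M'), SC β ∧
      ∀ b x, β (lab N f h.add l (k b) x) = lab N' f' h'.add l' (k' b) (β x) := by
  have F1 : ∀ z, ∃ (x : Orb N k × M) (g : Multiplicative ℤ × B),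
      labB N k f h.add l g ((0 : ℤ), x.1.out, x.2) = z := by
    rintro ⟨z, p, i⟩
    obtain ⟨b, hb⟩ := Quotient.exact (Quotient.out_eq (Quotient.mk (orbS N k) p))
    refine ⟨(Quotient.mk (orbS N k) p, i), (Multiplicative.ofAdd
      (z - l i * kap N f (k b) (Quotient.mk (orbS N k) p).out), b), ?_⟩
    rw [labB_apply]
    simp only [hb]
    ext1
    · show 0 + _ + _ = z
      ring
    · rfl
  have F2 : ∀ (x x' : Orb N k × M) (g : Multiplicative ℤ × B),
      labB N k f h.add l g ((0 : ℤ), x.1.out, x.2) = ((0 : ℤ), x'.1.out, x'.2) → x = x' := by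
    rintro ⟨t, i⟩ ⟨t', i'⟩ ⟨q, b⟩ h1
    have h2 : k b • t.out = t'.out := congrArg (fun x => x.2.1) h1
    have h3 : i = i' := congrArg (fun x => x.2.2) h1
    have h4 : t = t' := by
      rw [← Quotient.out_eq t, ← Quotient.out_eq t']
      exact Quotient.sound ⟨b, h2⟩
    rw [h3, h4]
  have F3 : ∀ z, ∃ (x : Orb N k × M) (g : Multiplicative ℤ × B),
      labB N' k' f' h'.add l' g ((0 : ℤ), (e x).1.out, (e x).2) = z := by
    rintro ⟨z, p, i⟩
    obtain ⟨b, hb⟩ := Quotient.exact (Quotient.out_eq (Quotient.mk (orbS N' k') p))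
    refine ⟨e.symm (Quotient.mk (orbS N' k') p, i), (Multiplicative.ofAdd
      (z - l' i * kap N' f' (k' b) (Quotient.mk (orbS N' k') p).out), b), ?_⟩
    rw [Equiv.apply_symm_apply, labB_apply]
    simp only [hb]
    ext1
    · show 0 + _ + _ = z
      ring
    · rfl
  have F4 : ∀ (x x' : Orb N k × M) (g : Multiplicative ℤ × B),
      labB N' k' f' h'.add l' g ((0 : ℤ), (e x).1.out, (e x).2) =
        ((0 : ℤ), (e x').1.out, (e x').2) → x = x' := by
    rintro x x' ⟨q, b⟩ h1
    have h2 : k' b • (e x).1.out = (e x').1.out := congrArg (fun x => x.2.1) h1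
    have h3 : (e x).2 = (e x').2 := congrArg (fun x => x.2.2) h1
    have h4 : (e x).1 = (e x').1 := by
      rw [← Quotient.out_eq (e x).1, ← Quotient.out_eq (e x').1]
      exact Quotient.sound ⟨b, h2⟩
    exact e.injective (Prod.ext h4 h3)
  have F5 : ∀ (x : Orb N k × M) (g : Multiplicative ℤ × B),
      labB N k f h.add l g ((0 : ℤ), x.1.out, x.2) = ((0 : ℤ), x.1.out, x.2) ↔
      labB N' k' f' h'.add l' g ((0 : ℤ), (e x).1.out, (e x).2) =
        ((0 : ℤ), (e x).1.out, (e x).2) := by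
    rintro x ⟨q, b⟩
    have h1 := h.stab l (Multiplicative.toAdd q) b x.1 x.2
    have h2 := h'.stab l' (Multiplicative.toAdd q) b (e x).1 (e x).2
    rw [he x] at h2
    rw [ofAdd_toAdd] at h1 h2
    rw [h1, h2]
  obtain ⟨β, hβ⟩ := equi_match (labB N k f h.add l) (labB N' k' f' h'.add l')
    (fun x : Orb N k × M => ((0 : ℤ), x.1.out, x.2))
    (fun x => ((0 : ℤ), (e x).1.out, (e x).2)) F1 F2 F3 F4 F5
  refine ⟨β, ?_, ?_⟩
  · intro z y d
    have h1 := hβ (Multiplicative.ofAdd y, 1) (z, d)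
    have h2 : labB N k f h.add l (Multiplicative.ofAdd y, 1) (z, d) = (z + y, d) := by
      obtain ⟨p, i⟩ := d
      rw [labB_apply, map_one, kap_one h.add, one_smul]
      simp
    have h3 : ∀ (z : ℤ) d, labB N' k' f' h'.add l' (Multiplicative.ofAdd y, 1) (z, d) =
        (z + y, d) := by
      rintro z ⟨p, i⟩
      rw [labB_apply, map_one, kap_one h'.add, one_smul]
      simp
    rw [h2] at h1
    rw [h1, ← h3]
  · intro b x
    have h1 := hβ (Multiplicative.ofAdd 0, b) x
    have h2 : labB N k f h.add l (Multiplicative.ofAdd 0, b) x = lab N f h.add l (k b) x := by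
      obtain ⟨z, p, i⟩ := x
      rw [labB_apply, lab_apply]
      simp
    have h3 : ∀ x, labB N' k' f' h'.add l' (Multiplicative.ofAdd 0, b) x =
        lab N' f' h'.add l' (k' b) x := by
      rintro ⟨z, p, i⟩
      rw [labB_apply, lab_apply]
      simp
    rw [h2, h3] at h1
    exact h1

end Pool.Agent.Q14.TG
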