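import Mathlib

/-! Characters with finitely generated kernel: openness. -/

set_option autoImplicit false

namespace Pool.Agent.Q14.TG

variable {G : Type*} [Group G]

/-- `f` is additive on the subgroup `N` -/
def Add (N : Subgroup G) (f : G → ℤ) : Prop := ∀ x ∈ N, ∀ y ∈ N, f (x * y) = f x + f y

/-- the kernel of `f` in `N` is finitely generated -/
def FK (N : Subgroup G) (f : G → ℤ) : Prop :=
  ∃ A : Set G, A.Finite ∧ ∀ x, x ∈ Subgroup.closure A ↔ x ∈ N ∧ f x = 0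

theorem Add.one {N : Subgroup G} {f : G → ℤ} (h : Add N f) : f 1 = 0 := by
  have := h 1 N.one_mem 1 N.one_mem
  rw [mul_one] at this
  omega

theorem Add.inv {N : Subgroup G} {f : G → ℤ} (h : Add N f) {x : G} (hx : x ∈ N) :
    f x⁻¹ = - f x := by
  have := h x hx x⁻¹ (N.inv_mem hx)
  rw [mul_inv_cancel, h.one] at this
  omega

theorem Add.pow {N : Subgroup G} {f : G → ℤ} (h : Add N f) {x : G} (hx : x ∈ N) (n : ℕ) :
    f (x ^ n) = n * f x := by
  induction n with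
  | zero => simp [h.one]
  | succ n ih =>
    rw [pow_succ, h _ (N.pow_mem hx n) _ hx, ih]
    push_cast
    ring

theorem Add.zpow {N : Subgroup G} {f : G → ℤ} (h : Add N f) {x : G} (hx : x ∈ N) (n : ℤ) :
    f (x ^ n) = n * f x := by
  cases n with
  | ofNat n =>
    have := h.pow hx n
    simpa using this
  | negSucc n =>
    rw [zpow_negSucc, h.inv (N.pow_mem hx _), h.pow hx, Int.negSucc_eq]
    push_cast
    ring

theorem Add.conj {N : Subgroup G} {f : G → ℤ} (h : Add N f) {x y : G} (hx : x ∈ N) (hy : y ∈ N) :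
    f (y * x * y⁻¹) = f x := by
  rw [h _ (N.mul_mem hy hx) _ (N.inv_mem hy), h _ hy _ hx, h.inv hy]
  ring

theorem Add.mono {N N' : Subgroup G} {f : G → ℤ} (h : Add N f) (hle : N' ≤ N) : Add N' f :=
  fun x hx y hy => h x (hle hx) y (hle hy)

theorem Add.lin {N : Subgroup G} {f g : G → ℤ} (hf : Add N f) (hg : Add N g) (a b : ℤ) :
    Add N (fun x => a * f x + b * g x) := by
  intro x hx y hy
  simp only [hf x hx y hy, hg x hx y hy]
  ring

/-- a generator of the image -/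
theorem exists_gen {N : Subgroup G} {f : G → ℤ} (h : Add N f) (hne : ∃ x ∈ N, f x ≠ 0) :
    ∃ t ∈ N, 0 < f t ∧ ∀ x ∈ N, ∃ k : ℤ, f x = k * f t := by
  classical
  have hex : ∃ n : ℕ, 0 < n ∧ ∃ x ∈ N, f x = n := by
    obtain ⟨x, hx, hx0⟩ := hne
    rcases lt_or_gt_of_ne hx0 with h0 | h0
    · refine ⟨(-f x).toNat, by omega, x⁻¹, N.inv_mem hx, ?_⟩
      rw [h.inv hx]; omega
    · exact ⟨(f x).toNat, by omega, x, hx, by omega⟩
  obtain ⟨hpos, t, ht, hft⟩ := Nat.find_spec hex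
  refine ⟨t, ht, by rw [hft]; exact_mod_cast hpos, fun x hx => ⟨f x / f t, ?_⟩⟩
  have hpos' : 0 < f t := by rw [hft]; exact_mod_cast hpos
  have hr : f (x * t ^ (-(f x / f t))) = f x % f t := by
    rw [h _ hx _ (N.zpow_mem ht _), h.zpow ht, Int.emod_def]
    ring
  have h1 := Int.emod_nonneg (f x) hpos'.ne'
  have h2 := Int.emod_lt_of_pos (f x) hpos'
  have h3 : f x % f t = 0 := by
    by_contra h0
    have hm : (f x % f t).toNat < Nat.find hex := by
      have : ((f x % f t).toNat : ℤ) < (Nat.find hex : ℤ) := by rw [← hft]; omega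
      exact_mod_cast this
    refine Nat.find_min hex hm ⟨by omega, x * t ^ (-(f x / f t)), N.mul_mem hx (N.zpow_mem ht _), ?_⟩
    rw [hr]; omega
  have h4 := Int.emod_add_mul_ediv (f x) (f t)
  rw [h3] at h4
  linarith [mul_comm (f t) (f x / f t)]

/-- Openness (Neumann): if `φ` has finitely generated kernel then so has `n φ + χ` for all large
`n`. -/
theorem perturb {N : Subgroup G} {φ χ : G → ℤ} (hφ : Add N φ) (hχ : Add N χ) (hk : FK N φ)
    (hne : ∃ x ∈ N, φ x ≠ 0) :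
    ∃ n₀ : ℕ, ∀ n : ℕ, n₀ ≤ n → FK N (fun x => (n : ℤ) * φ x + 1 * χ x) := by
  classical
  obtain ⟨t, ht, htpos, htgen⟩ := exists_gen hφ hne
  obtain ⟨A, hA, hAN⟩ := hk
  -- symmetric generating set
  set S : Set G := A ∪ (fun x => x⁻¹) '' A with hS
  have hSf : S.Finite := hA.union (hA.image _)
  have hSN : ∀ s ∈ S, s ∈ N ∧ φ s = 0 := by
    rintro s (hs | ⟨s, hs, rfl⟩)
    · exact (hAN s).1 (Subgroup.subset_closure hs)
    · exact (hAN _).1 (Subgroup.inv_mem _ (Subgroup.subset_closure hs))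
  have hlist : ∀ x, x ∈ N → φ x = 0 → ∃ l : List G, (∀ y ∈ l, y ∈ S) ∧ l.prod = x := by
    intro x hx hx0
    have hm : x ∈ (Subgroup.closure A).toSubmonoid := (hAN x).2 ⟨hx, hx0⟩
    rw [Subgroup.closure_toSubmonoid] at hm
    obtain ⟨l, hl, hp⟩ := Submonoid.exists_list_of_mem_closure hm
    refine ⟨l, fun y hy => ?_, hp⟩
    rcases hl y hy with h | h
    · exact Or.inl h
    · exact Or.inr ⟨y⁻¹, h, inv_inv y⟩
  have hc : ∀ s : G, s ∈ S → ∃ l l' : List G, (∀ y ∈ l, y ∈ S) ∧ (∀ y ∈ l', y ∈ S) ∧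
      l.prod = t * s * t⁻¹ ∧ l'.prod = t⁻¹ * s * t := by
    intro s hs
    obtain ⟨h1, h2⟩ := hSN s hs
    obtain ⟨l, hl, hlp⟩ := hlist (t * s * t⁻¹) (N.mul_mem (N.mul_mem ht h1) (N.inv_mem ht))
      (by rw [hφ.conj h1 ht, h2])
    obtain ⟨l', hl', hlp'⟩ := hlist (t⁻¹ * s * t) (N.mul_mem (N.mul_mem (N.inv_mem ht) h1) ht)
      (by
        have := hφ.conj h1 (N.inv_mem ht)
        rw [inv_inv] at this
        rw [this, h2])
    exact ⟨l, l', hl, hl', hlp, hlp'⟩
  have hc' : ∀ s : G, ∃ l l' : List G, s ∈ S → (∀ y ∈ l, y ∈ S) ∧ (∀ y ∈ l', y ∈ S) ∧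
      l.prod = t * s * t⁻¹ ∧ l'.prod = t⁻¹ * s * t := by
    intro s
    by_cases hs : s ∈ S
    · obtain ⟨l, l', h⟩ := hc s hs
      exact ⟨l, l', fun _ => h⟩
    · exact ⟨[], [], fun h => absurd h hs⟩
  choose l₁ l₂ hl using hc'
  obtain ⟨c₀, hc₀⟩ : ∃ c₀ : ℕ, ∀ s ∈ S, ((l₁ s).map fun y => (χ y).natAbs).sum ≤ c₀ ∧
      ((l₂ s).map fun y => (χ y).natAbs).sum ≤ c₀ := by
    refine ⟨∑ s ∈ hSf.toFinset, (((l₁ s).map fun y => (χ y).natAbs).sum +
      ((l₂ s).map fun y => (χ y).natAbs).sum), fun s hs => ?_⟩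
    have := Finset.single_le_sum (f := fun s => (((l₁ s).map fun y => (χ y).natAbs).sum +
      ((l₂ s).map fun y => (χ y).natAbs).sum)) (fun _ _ => Nat.zero_le _)
      (hSf.mem_toFinset.2 hs)
    omega
  refine ⟨c₀ + (χ t).natAbs + 1, fun n hn => ?_⟩
  set ψ : G → ℤ := fun x => (n : ℤ) * φ x + 1 * χ x with hψ
  have hAψ : Add N ψ := hφ.lin hχ n 1
  have hψS : ∀ s ∈ S, ψ s = χ s := by
    intro s hs
    simp [hψ, (hSN s hs).2]
  set T : ℤ := ψ t with hT
  have hTc : (c₀ : ℤ) < T := by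
    have h1 : (n : ℤ) ≤ n * φ t := by nlinarith
    have h2 : ψ t = n * φ t + χ t := by simp [hψ]
    have h3 : (c₀ : ℤ) + (χ t).natAbs + 1 ≤ n := by exact_mod_cast hn
    have h4 : -((χ t).natAbs : ℤ) ≤ χ t := by omega
    rw [hT, h2]
    linarith
  have hT0 : 0 < T := by have : (0 : ℤ) ≤ c₀ := Int.natCast_nonneg _; omega
  -- representatives
  have hρ : ∀ j : ℤ, ∃ x : G, ((∃ y ∈ N, ψ y = j) → x ∈ N ∧ ψ x = j) ∧ (j = 0 → x = 1) := by
    intro j
    by_cases h0 : j = 0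
    · subst h0
      exact ⟨1, fun _ => ⟨N.one_mem, hAψ.one⟩, fun _ => rfl⟩
    · by_cases h : ∃ y ∈ N, ψ y = j
      · obtain ⟨y, hy, hyj⟩ := h
        exact ⟨y, fun _ => ⟨hy, hyj⟩, fun h => absurd h h0⟩
      · exact ⟨1, fun h' => absurd h' h, fun h => absurd h h0⟩
  choose ρ hρ1 hρ2 using hρ
  set r : ℤ → G := fun j => ρ (j % T) * t ^ (j / T) with hr
  have hIm : ∀ j, (∃ y ∈ N, ψ y = j) → r j ∈ N ∧ ψ (r j) = j := by
    rintro j ⟨y, hy, hyj⟩
    have h1 := hρ1 (j % T) ⟨y * t ^ (-(j / T)), N.mul_mem hy (N.zpow_mem ht _), by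
      rw [hAψ _ hy _ (N.zpow_mem ht _), hAψ.zpow ht, hyj, Int.emod_def, ← hT]; ring⟩
    refine ⟨N.mul_mem h1.1 (N.zpow_mem ht _), ?_⟩
    show ψ (ρ (j % T) * t ^ (j / T)) = j
    rw [hAψ _ h1.1 _ (N.zpow_mem ht _), h1.2, hAψ.zpow ht, ← hT, Int.emod_def]
    ring
  have hr0 : r 0 = 1 := by simp [hr, hρ2]
  have hrT : ∀ (j k : ℤ), r (j + k * T) = r j * t ^ k := by
    intro j k
    simp only [hr]
    rw [Int.add_mul_emod_self_right, Int.add_mul_ediv_right _ _ hT0.ne', zpow_add, mul_assoc]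
  have hrT1 : ∀ j, r (j + T) = r j * t := by
    intro j
    have := hrT j 1
    simpa using this
  -- the finite generating set
  set 𝔉 : Set G := (fun q : ℤ × G => r q.1 * q.2 * (r (q.1 + ψ q.2))⁻¹) ''
    ((Set.Icc (-(T + c₀)) (T + c₀) ∩ {j | ∃ y ∈ N, ψ y = j}) ×ˢ S) with h𝔉
  have h𝔉f : 𝔉.Finite := (((Set.finite_Icc _ _).inter_of_left _).prod hSf).image _
  -- words
  have hword : ∀ (m : ℤ), (∀ i, (∃ y ∈ N, ψ y = i) → |i| < m → ∀ s ∈ S,
      r i * s * (r (i + ψ s))⁻¹ ∈ Subgroup.closure 𝔉) → ∀ (l : List G), (∀ y ∈ l, y ∈ S) →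
      ∀ i, (∃ y ∈ N, ψ y = i) → |i| + ((l.map fun y => (χ y).natAbs).sum : ℕ) < m →
      r i * l.prod * (r (i + ψ l.prod))⁻¹ ∈ Subgroup.closure 𝔉 ∧ l.prod ∈ N := by
    intro m hm l
    induction l with
    | nil =>
      intro _ i hi _
      simp [hAψ.one, N.one_mem, Subgroup.one_mem]
    | cons s l ih =>
      intro hl i hi hlt
      have hs : s ∈ S := hl s (by simp)
      obtain ⟨y, hy, hyi⟩ := hi
      have hi' : ∃ y ∈ N, ψ y = i + ψ s :=
        ⟨y * s, N.mul_mem hy (hSN s hs).1, by rw [hAψ _ hy _ (hSN s hs).1, hyi]⟩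
      rw [List.map_cons, List.sum_cons] at hlt
      push_cast at hlt
      have habs : |i + ψ s| ≤ |i| + |χ s| := by rw [hψS s hs]; exact abs_add_le _ _
      have hna : ((χ s).natAbs : ℤ) = |χ s| := Int.natCast_natAbs _
      have hnn : (0 : ℤ) ≤ ((l.map fun y => (χ y).natAbs).sum : ℕ) := Int.natCast_nonneg _
      push_cast at hnn
      have h1 := hm i ⟨y, hy, hyi⟩ (by
        have := abs_nonneg (χ s)
        push_cast at hlt
        linarith) s hs
      obtain ⟨h2, h3⟩ := ih (fun y hy => hl y (by simp [hy])) (i + ψ s) hi' (by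
        push_cast at hlt ⊢
        linarith)
      refine ⟨?_, ?_⟩
      · have h4 := Subgroup.mul_mem _ h1 h2
        have h5 : ψ (s * l.prod) = ψ s + ψ l.prod := hAψ _ (hSN s hs).1 _ h3
        rw [List.prod_cons, h5, ← add_assoc]
        convert h4 using 1
        group
      · rw [List.prod_cons]
        exact N.mul_mem (hSN s hs).1 h3
  -- the main claim, by induction on the absolute value of the index
  have hclaim : ∀ (m : ℕ) (j : ℤ), j.natAbs = m → (∃ y ∈ N, ψ y = j) → ∀ s ∈ S,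
      r j * s * (r (j + ψ s))⁻¹ ∈ Subgroup.closure 𝔉 := by
    intro m
    induction m using Nat.strong_induction_on with
    | _ m ih =>
      intro j hj hjI s hs
      by_cases hsmall : j ∈ Set.Icc (-(T + c₀)) (T + c₀)
      · exact Subgroup.subset_closure ⟨(j, s), ⟨⟨hsmall, hjI⟩, hs⟩, rfl⟩
      · have hm : ∀ i, (∃ y ∈ N, ψ y = i) → |i| < |j| → ∀ s ∈ S,
            r i * s * (r (i + ψ s))⁻¹ ∈ Subgroup.closure 𝔉 := by
          intro i hi hlt s hs
          refine ih i.natAbs ?_ i rfl hi s hs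
          rw [← hj]
          have h1 : ((i.natAbs : ℕ) : ℤ) < ((j.natAbs : ℕ) : ℤ) := by
            rw [Int.natCast_natAbs, Int.natCast_natAbs]; exact hlt
          exact_mod_cast h1
        obtain ⟨y, hy, hyj⟩ := hjI
        obtain ⟨hl1, hl2, hl3, hl4⟩ := hl s hs
        obtain ⟨hb1, hb2⟩ := hc₀ s hs
        rw [Set.mem_Icc, not_and_or, not_le, not_le] at hsmall
        rcases hsmall with hneg | hpos
        · -- j very negative
          have hI : ∃ y ∈ N, ψ y = j + T := ⟨y * t, N.mul_mem hy ht, by rw [hAψ _ hy _ ht, hyj]⟩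
          obtain ⟨h1, h2⟩ := hword |j| hm (l₂ s) hl2 (j + T) hI (by
            have h5 : (((l₂ s).map fun y => (χ y).natAbs).sum : ℤ) ≤ c₀ := by exact_mod_cast hb2
            push_cast at h5 ⊢
            have h6 : |j| = -j := abs_of_neg (by linarith)
            have h7 : |j + T| = -(j + T) := abs_of_neg (by
              have : (0 : ℤ) ≤ c₀ := Int.natCast_nonneg _
              linarith)
            rw [h6, h7]
            linarith)
          have h8 : ψ (t⁻¹ * s * t) = ψ s := by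
            have := hAψ.conj (hSN s hs).1 (N.inv_mem ht)
            rwa [inv_inv] at this
          rw [hl4, h8] at h1
          have h9 : r (j + T) = r j * t := hrT1 j
          have h10 : r (j + T + ψ s) = r (j + ψ s) * t := by
            rw [← hrT1]; congr 1; ring
          rw [h9, h10] at h1
          convert h1 using 1
          group
        · have hI : ∃ y ∈ N, ψ y = j - T := ⟨y * t⁻¹, N.mul_mem hy (N.inv_mem ht), by
            rw [hAψ _ hy _ (N.inv_mem ht), hAψ.inv ht, hyj]; ring⟩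
          obtain ⟨h1, h2⟩ := hword |j| hm (l₁ s) hl1 (j - T) hI (by
            have h5 : (((l₁ s).map fun y => (χ y).natAbs).sum : ℤ) ≤ c₀ := by exact_mod_cast hb1
            push_cast at h5 ⊢
            have h6 : |j| = j := abs_of_pos (by
              have : (0 : ℤ) ≤ c₀ := Int.natCast_nonneg _
              linarith)
            have h7 : |j - T| = j - T := abs_of_pos (by
              have : (0 : ℤ) ≤ c₀ := Int.natCast_nonneg _
              linarith)
            rw [h6, h7]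
            linarith)
          have h8 : ψ (t * s * t⁻¹) = ψ s := hAψ.conj (hSN s hs).1 ht
          rw [hl3, h8] at h1
          have h9 : r j = r (j - T) * t := by rw [← hrT1]; congr 1; ring
          have h10 : r (j + ψ s) = r (j - T + ψ s) * t := by
            rw [← hrT1]; congr 1; ring
          rw [h9, h10]
          convert h1 using 1
          group
  have hle : ∀ x ∈ Subgroup.closure 𝔉, x ∈ N ∧ ψ x = 0 := by
    intro x hx
    refine Subgroup.closure_induction (p := fun x _ => x ∈ N ∧ ψ x = 0) ?_ ?_ ?_ ?_ hx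
    · rintro _ ⟨⟨j, s⟩, ⟨⟨-, hj⟩, hs⟩, rfl⟩
      obtain ⟨h1, h2⟩ := hIm j hj
      obtain ⟨y, hy, hyj⟩ := hj
      obtain ⟨h3, h4⟩ := hIm (j + ψ s) ⟨y * s, N.mul_mem hy (hSN s hs).1, by
        rw [hAψ _ hy _ (hSN s hs).1, hyj]⟩
      refine ⟨N.mul_mem (N.mul_mem h1 (hSN s hs).1) (N.inv_mem h3), ?_⟩
      show ψ (r j * s * (r (j + ψ s))⁻¹) = 0
      rw [hAψ _ (N.mul_mem h1 (hSN s hs).1) _ (N.inv_mem h3), hAψ _ h1 _ (hSN s hs).1,
        hAψ.inv h3, h2, h4]
      ring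
    · exact ⟨N.one_mem, hAψ.one⟩
    · rintro x y _ _ ⟨h1, h2⟩ ⟨h3, h4⟩
      exact ⟨N.mul_mem h1 h3, by rw [hAψ _ h1 _ h3, h2, h4]; rfl⟩
    · rintro x _ ⟨h1, h2⟩
      exact ⟨N.inv_mem h1, by rw [hAψ.inv h1, h2]; rfl⟩
  refine ⟨𝔉, h𝔉f, fun x => ⟨hle x, ?_⟩⟩
  rintro ⟨hx, hx0⟩
  obtain ⟨k, hk⟩ := htgen x hx
  have ha : x * t ^ (-k) ∈ N := N.mul_mem hx (N.zpow_mem ht _)
  have ha0 : φ (x * t ^ (-k)) = 0 := by
    rw [hφ _ hx _ (N.zpow_mem ht _), hφ.zpow ht, hk]; ring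
  obtain ⟨l, hl1, hl2⟩ := hlist _ ha ha0
  obtain ⟨h1, -⟩ := hword (1 + ((l.map fun y => (χ y).natAbs).sum : ℕ)) (fun i hi _ s hs =>
    hclaim _ i rfl hi s hs) l hl1 0 ⟨1, N.one_mem, hAψ.one⟩ (by simp)
  rw [hl2, hr0, one_mul, zero_add] at h1
  have h2 : ψ (x * t ^ (-k)) = (-k) * T := by
    show ψ (x * t ^ (-k)) = (-k) * T
    rw [hAψ _ hx _ (N.zpow_mem ht _), hAψ.zpow ht, ← hT]
    have : ψ x = 0 := hx0
    rw [this]; ring
  have h3 : r ((-k) * T) = t ^ (-k) := by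
    have := hrT 0 (-k)
    rw [zero_add, hr0, one_mul] at this
    exact this
  rw [h2, h3] at h1
  simpa using h1

end Pool.Agent.Q14.TG
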