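import Pool.Agent.Q14.TG.Final

/-! Fundamental groups of trees of groups and amalgamated products. -/

set_option autoImplicit false

namespace Pool.Agent.Q14.TG

open Subgroup

section tree

variable {V E : Type} {o t : E → V} {A : V → Type} [∀ v, Group (A v)] {B : E → Type}
  [∀ e, Group (B e)]

/-- The fundamental group of a tree of groups: the free product of the vertex groups `A v` modulo
the relations `i e b = j e b`, for all edges `e` and all elements `b` of the edge group `B e`. -/
abbrev Pi1 (i : ∀ e, B e →* A (o e)) (j : ∀ e, B e →* A (t e)) : Type :=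
  Monoid.CoprodI A ⧸ Subgroup.normalClosure {x : Monoid.CoprodI A | ∃ (e : E) (b : B e),
    x = Monoid.CoprodI.of (i e b) * (Monoid.CoprodI.of (j e b))⁻¹}

theorem pi1_fibered [Finite V] [Finite E] (hl : ∀ e, o e ≠ t e)
    (hinj : ∀ e e', s(o e, t e) = s(o e', t e') → e = e') (hΓ : (graph o t).IsTree)
    (i : ∀ e, B e →* A (o e)) (j : ∀ e, B e →* A (t e))
    (hi : ∀ e, Function.Injective (i e)) (hj : ∀ e, Function.Injective (j e))
    (hA : ∀ v, ∃ (K : Subgroup (A v)) (φ : A v → ℤ), K.FiniteIndex ∧ Add K φ ∧ FK K φ ∧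
      ∃ x ∈ K, φ x ≠ 0)
    (hB : ∀ e, InfiniteVirtuallyCyclic (B e))
    (hri : ∀ e, IsVirtualRetract (i e).range) (hrj : ∀ e, IsVirtualRetract (j e).range) :
    VirtuallyFibered (Pi1 i j) := by
  classical
  apply to_fibered
  set R : Subgroup (Monoid.CoprodI A) := Subgroup.normalClosure
    {x : Monoid.CoprodI A | ∃ (e : E) (b : B e),
      x = Monoid.CoprodI.of (i e b) * (Monoid.CoprodI.of (j e b))⁻¹} with hR
  refine tree_fibered hl hinj hΓ i j hi hj hA hB hri hrj (G := Pi1 i j)
    (fun v => (QuotientGroup.mk' R).comp Monoid.CoprodI.of) ?_ ?_ ?_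
  · intro e b
    show (QuotientGroup.mk (Monoid.CoprodI.of (i e b)) : Monoid.CoprodI A ⧸ R) =
      QuotientGroup.mk (Monoid.CoprodI.of (j e b))
    rw [eq_comm, QuotientGroup.eq]
    have h1 : (Monoid.CoprodI.of (i e b) * (Monoid.CoprodI.of (j e b))⁻¹ : Monoid.CoprodI A) ∈ R :=
      Subgroup.subset_normalClosure ⟨e, b, rfl⟩
    have h2 := (inferInstance : R.Normal).conj_mem _ h1 (Monoid.CoprodI.of (j e b))⁻¹
    convert h2 using 1
    group
  · intro g
    obtain ⟨x, rfl⟩ := QuotientGroup.mk_surjective g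
    induction x using Monoid.CoprodI.induction_on with
    | one => exact Subgroup.one_mem _
    | of v m =>
      exact Subgroup.mem_iSup_of_mem v ⟨m, rfl⟩
    | mul x y hx hy => exact Subgroup.mul_mem _ hx hy
  · intro X θ hθ
    refine ⟨QuotientGroup.lift R (Monoid.CoprodI.lift θ) ?_, ?_⟩
    · intro x hx
      have hle : R ≤ (Monoid.CoprodI.lift θ).ker := by
        rw [hR]
        apply Subgroup.normalClosure_le_normal
        rintro _ ⟨e, b, rfl⟩
        show Monoid.CoprodI.lift θ (Monoid.CoprodI.of (i e b) * (Monoid.CoprodI.of (j e b))⁻¹) = 1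
        rw [map_mul, map_inv, Monoid.CoprodI.lift_of, Monoid.CoprodI.lift_of, hθ e b, mul_inv_cancel]
      exact hle hx
    · intro v x
      show Monoid.CoprodI.lift θ (Monoid.CoprodI.of x) = θ v x
      rw [Monoid.CoprodI.lift_of]

end tree

section amalgam

variable {G₀ G₁ G₂ : Type} [Group G₀] [Group G₁] [Group G₂]

/-- The amalgamated free product: the free product of `G₁` and `G₂` modulo the relations
`i b = j b` for all `b` in `G₀`. -/
abbrev Amalgam (i : G₀ →* G₁) (j : G₀ →* G₂) : Type :=
  Monoid.Coprod G₁ G₂ ⧸ Subgroup.normalClosure {x : Monoid.Coprod G₁ G₂ | ∃ b : G₀,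
    x = Monoid.Coprod.inl (i b) * (Monoid.Coprod.inr (j b))⁻¹}

/-- the two vertex groups -/
def twoA (G₁ G₂ : Type) : Bool → Type
  | false => G₁
  | true => G₂

instance (v : Bool) : Group (twoA G₁ G₂ v) :=
  match v with
  | false => (inferInstance : Group G₁)
  | true => (inferInstance : Group G₂)

theorem two_tree : (graph (fun _ : Unit => false) (fun _ : Unit => true)).IsTree := by
  have hadj : (graph (fun _ : Unit => false) (fun _ : Unit => true)).Adj false true :=
    graph_adj.2 ⟨⟨(), rfl⟩, Bool.false_ne_true⟩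
  rw [SimpleGraph.isTree_iff_existsUnique_path]
  refine ⟨inferInstance, ?_⟩
  intro u v
  have hpath : ∀ {a b : Bool} (p : (graph (fun _ : Unit => false) (fun _ : Unit => true)).Walk a b),
      p.IsPath → p.length ≤ 1 := by
    intro a b p hp
    have := hp.length_lt
    simp at this
    omega
  by_cases huv : u = v
  · subst huv
    refine ⟨SimpleGraph.Walk.nil, SimpleGraph.Walk.IsPath.nil, ?_⟩
    intro p hp
    exact (SimpleGraph.Walk.isPath_iff_nil.1 hp).eq_nil
  · have h : (graph (fun _ : Unit => false) (fun _ : Unit => true)).Adj u v := by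
      cases u <;> cases v
      · exact absurd rfl huv
      · exact hadj
      · exact hadj.symm
      · exact absurd rfl huv
    refine ⟨SimpleGraph.Walk.cons h SimpleGraph.Walk.nil, by simp [huv], ?_⟩
    intro p hp
    cases p with
    | nil => exact absurd rfl huv
    | cons h' q =>
      have h1 := hpath _ hp
      rw [SimpleGraph.Walk.length_cons] at h1
      have h2 : q.length = 0 := by omega
      have h3 := SimpleGraph.Walk.eq_of_length_eq_zero h2
      subst h3
      have h4 : q = SimpleGraph.Walk.nil := (SimpleGraph.Walk.length_eq_zero_iff.1 h2).eq_nil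
      rw [h4]

theorem amalgam_fibered (i : G₀ →* G₁) (j : G₀ →* G₂) (hi : Function.Injective i)
    (hj : Function.Injective j)
    (h₁ : ∃ (K : Subgroup G₁) (φ : G₁ → ℤ), K.FiniteIndex ∧ Add K φ ∧ FK K φ ∧ ∃ x ∈ K, φ x ≠ 0)
    (h₂ : ∃ (K : Subgroup G₂) (φ : G₂ → ℤ), K.FiniteIndex ∧ Add K φ ∧ FK K φ ∧ ∃ x ∈ K, φ x ≠ 0)
    (h₀ : InfiniteVirtuallyCyclic G₀) (hri : IsVirtualRetract i.range)
    (hrj : IsVirtualRetract j.range) : VirtuallyFibered (Amalgam i j) := by
  classical
  apply to_fibered
  set R : Subgroup (Monoid.Coprod G₁ G₂) := Subgroup.normalClosure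
    {x : Monoid.Coprod G₁ G₂ | ∃ b : G₀,
      x = Monoid.Coprod.inl (i b) * (Monoid.Coprod.inr (j b))⁻¹} with hR
  let ι : ∀ v : Bool, twoA G₁ G₂ v →* Amalgam i j := fun v =>
    match v with
    | false => (QuotientGroup.mk' R).comp Monoid.Coprod.inl
    | true => (QuotientGroup.mk' R).comp Monoid.Coprod.inr
  refine tree_fibered (V := Bool) (E := Unit) (o := fun _ => false) (t := fun _ => true)
    (A := twoA G₁ G₂) (B := fun _ => G₀) (fun _ => Bool.false_ne_true) (fun _ _ _ => rfl) two_tree
    (fun _ => i) (fun _ => j) (fun _ => hi) (fun _ => hj) ?_ (fun _ => h₀) (fun _ => hri)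
    (fun _ => hrj) ι ?_ ?_ ?_
  · intro v
    cases v
    · exact h₁
    · exact h₂
  · intro _ b
    show (QuotientGroup.mk (Monoid.Coprod.inl (i b)) : Monoid.Coprod G₁ G₂ ⧸ R) =
      QuotientGroup.mk (Monoid.Coprod.inr (j b))
    rw [eq_comm, QuotientGroup.eq]
    have h1 : (Monoid.Coprod.inl (i b) * (Monoid.Coprod.inr (j b))⁻¹ : Monoid.Coprod G₁ G₂) ∈ R :=
      Subgroup.subset_normalClosure ⟨b, rfl⟩
    have h2 := (inferInstance : R.Normal).conj_mem _ h1 (Monoid.Coprod.inr (j b))⁻¹
    convert h2 using 1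
    group
  · intro g
    obtain ⟨x, rfl⟩ := QuotientGroup.mk_surjective g
    induction x using Monoid.Coprod.induction_on with
    | inl m => exact Subgroup.mem_iSup_of_mem false ⟨m, rfl⟩
    | inr m => exact Subgroup.mem_iSup_of_mem true ⟨m, rfl⟩
    | mul x y hx hy => exact Subgroup.mul_mem _ hx hy
  · intro X θ hθ
    let F : Monoid.Coprod G₁ G₂ →* Equiv.Perm X := Monoid.Coprod.lift (θ false) (θ true)
    refine ⟨QuotientGroup.lift R F ?_, ?_⟩
    · intro x hx
      have hle : R ≤ F.ker := by
        rw [hR]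
        apply Subgroup.normalClosure_le_normal
        rintro _ ⟨b, rfl⟩
        show F (Monoid.Coprod.inl (i b) * (Monoid.Coprod.inr (j b))⁻¹) = 1
        rw [map_mul, map_inv]
        have h1 : F (Monoid.Coprod.inl (i b)) = θ false (i b) := Monoid.Coprod.lift_apply_inl _ _ _
        have h2 : F (Monoid.Coprod.inr (j b)) = θ true (j b) := Monoid.Coprod.lift_apply_inr _ _ _
        rw [h1, h2]
        have h3 : θ false (i b) = θ true (j b) := hθ () b
        rw [h3]
        exact mul_inv_cancel (θ true (j b))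
      exact hle hx
    · intro v x
      cases v
      · exact Monoid.Coprod.lift_apply_inl (M := G₁) (N := G₂) (θ false) (θ true) x
      · exact Monoid.Coprod.lift_apply_inr (M := G₁) (N := G₂) (θ false) (θ true) x

end amalgam

end Pool.Agent.Q14.TG
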