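import Pool.Agent.Q14.TG.Neumann

/-! Preparation of the vertex groups. -/

set_option autoImplicit false

namespace Pool.Agent.Q14.TG

open Subgroup

/-- `H` is a virtual retract of `G` -/
def IsVirtualRetract {G : Type*} [Group G] (H : Subgroup G) : Prop :=
  ∃ K : Subgroup G, K.FiniteIndex ∧ H ≤ K ∧
    ∃ ρ : K →* H, ∀ (h : G) (hK : h ∈ K) (hH : h ∈ H), ρ ⟨h, hK⟩ = ⟨h, hH⟩

section lemmas

variable {G : Type*} [Group G]

theorem finiteIndex_of_map {N : Subgroup G} {T : Type*} [Finite T] (F : G → T)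
    (h : ∀ x y, F x = F y → x⁻¹ * y ∈ N) : N.FiniteIndex := by
  have : Finite (G ⧸ N) := by
    refine Finite.of_injective (fun q : G ⧸ N => F q.out) ?_
    intro q q' hq
    have := h _ _ hq
    rw [← q.out_eq', ← q'.out_eq']
    exact QuotientGroup.eq.2 this
  exact Subgroup.finiteIndex_of_finite_quotient

theorem comap_finiteIndex {G' : Type*} [Group G'] (f : G →* G') {H : Subgroup G'}
    (hH : H.FiniteIndex) : (H.comap f).FiniteIndex := by
  have : Finite (G' ⧸ H) := Subgroup.finiteIndex_iff_finite_quotient.1 hH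
  refine finiteIndex_of_map (fun x => (QuotientGroup.mk (f x) : G' ⧸ H)) ?_
  intro x y hxy
  have := QuotientGroup.eq.1 hxy
  rw [Subgroup.mem_comap, map_mul, map_inv]
  exact this

theorem map_subtype_finiteIndex {H : Subgroup G} (hH : H.FiniteIndex) {K : Subgroup H}
    (hK : K.FiniteIndex) : (K.map H.subtype).FiniteIndex := by
  refine ⟨?_⟩
  rw [Subgroup.index_map_subtype]
  exact Nat.mul_ne_zero hK.index_ne_zero hH.index_ne_zero

theorem int_ideal (P : ℤ → Prop) (hsub : ∀ a b, P a → P b → P (a - b)) (L : ℤ) (hL : L ≠ 0)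
    (hPL : P L) : ∃ μ : ℕ, 0 < μ ∧ ∀ j : ℤ, P j ↔ (μ : ℤ) ∣ j := by
  have h0 : P 0 := by have := hsub L L hPL hPL; rwa [sub_self] at this
  have hneg : ∀ a, P a → P (-a) := fun a ha => by have := hsub 0 a h0 ha; rwa [zero_sub] at this
  let H : AddSubgroup ℤ :=
    { carrier := {j | P j}
      add_mem' := fun {a b} ha hb => by
        have := hsub a (-b) ha (hneg b hb)
        rwa [sub_neg_eq_add] at this
      zero_mem' := h0
      neg_mem' := fun {a} ha => hneg a ha }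
  obtain ⟨a, ha⟩ := Int.subgroup_cyclic H
  have hm : ∀ j, P j ↔ a ∣ j := by
    intro j
    have h1 : P j ↔ j ∈ H := Iff.rfl
    rw [h1, ha, AddSubgroup.mem_closure_singleton]
    constructor
    · rintro ⟨n, rfl⟩
      exact ⟨n, by rw [smul_eq_mul]; ring⟩
    · rintro ⟨n, rfl⟩
      exact ⟨n, by rw [smul_eq_mul]; ring⟩
  refine ⟨a.natAbs, ?_, fun j => ?_⟩
  · rw [Int.natAbs_pos]
    rintro rfl
    exact hL (Int.zero_dvd.1 ((hm L).1 hPL))
  · rw [hm, Int.natAbs_dvd]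

theorem exists_exponent {N : Subgroup G} (hN : N.FiniteIndex) (y : G) :
    ∃ m : ℕ, 0 < m ∧ ∀ j : ℤ, y ^ j ∈ N ↔ (m : ℤ) ∣ j := by
  obtain ⟨n, hn, -, hy⟩ := Subgroup.exists_pow_mem_of_index_ne_zero hN.index_ne_zero y
  refine int_ideal (fun j => y ^ j ∈ N) ?_ n (by exact_mod_cast hn.ne') (by simpa using hy)
  intro a b ha hb
  show y ^ (a - b) ∈ N
  rw [zpow_sub]
  exact N.mul_mem ha (N.inv_mem hb)

/-- a character which does not vanish on a finite set -/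
theorem generic_char {N : Subgroup G} (X : Set G) (hX : X.Finite)
    (h : ∀ x ∈ X, ∃ χ : G → ℤ, Add N χ ∧ χ x ≠ 0) : ∃ χ : G → ℤ, Add N χ ∧ ∀ x ∈ X, χ x ≠ 0 := by
  induction X, hX using Set.Finite.induction_on with
  | empty => exact ⟨fun _ => 0, fun x _ y _ => rfl, fun x hx => absurd hx (Set.notMem_empty x)⟩
  | @insert a s has hs ih =>
    obtain ⟨χ, h1, h2⟩ := ih fun x hx => h x (Set.mem_insert_of_mem _ hx)
    by_cases ha : χ a ≠ 0
    · refine ⟨χ, h1, ?_⟩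
      rintro x (rfl | hx)
      · exact ha
      · exact h2 x hx
    · push Not at ha
      obtain ⟨χ', h3, h4⟩ := h a (Set.mem_insert _ _)
      -- choose a large multiple
      set M : ℤ := 1 + ∑ x ∈ hs.toFinset, |χ' x| with hM
      refine ⟨fun x => M * χ x + 1 * χ' x, h1.lin h3 _ _, ?_⟩
      rintro x (rfl | hx)
      · simpa [ha] using h4
      · intro h0
        have h5 : |χ' x| < M := by
          have := Finset.single_le_sum (f := fun x => |χ' x|) (fun _ _ => abs_nonneg _)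
            (hs.mem_toFinset.2 hx)
          have h6 : |χ' x| ≤ ∑ x ∈ hs.toFinset, |χ' x| := this
          linarith
        have h6 : χ' x = -(M * χ x) := by
          have : M * χ x + 1 * χ' x = 0 := h0
          linarith
        have h7 : 1 ≤ |χ x| := Int.one_le_abs (h2 x hx)
        have hM0 : 0 < M := lt_of_le_of_lt (abs_nonneg _) h5
        rw [h6, abs_neg, abs_mul, abs_of_pos hM0] at h5
        nlinarith

/-- passing to finite index -/
theorem FK.mono {N N' : Subgroup G} {f : G → ℤ} (hf : Add N f) (h : FK N f) (hle : N' ≤ N)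
    (hN' : N'.FiniteIndex) : FK N' f := by
  obtain ⟨A, hA, hAN⟩ := h
  have : Group.FG (Subgroup.closure A) := by
    rw [Group.fg_iff_subgroup_fg]
    exact ⟨hA.toFinset, by rw [Set.Finite.coe_toFinset]⟩
  have h2 : Group.FG (N'.subgroupOf (Subgroup.closure A)) := by
    have : (N'.subgroupOf (Subgroup.closure A)).FiniteIndex := inferInstance
    exact Subgroup.fg_of_index_ne_zero _
  rw [Group.fg_iff_subgroup_fg] at h2
  obtain ⟨S, hS⟩ := h2
  refine ⟨(fun x : Subgroup.closure A => (x : G)) '' S, S.finite_toSet.image _, fun x => ?_⟩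
  have h3 : Subgroup.closure ((fun x : Subgroup.closure A => (x : G)) '' (S : Set _)) =
      (Subgroup.closure (S : Set (Subgroup.closure A))).map (Subgroup.closure A).subtype := by
    rw [MonoidHom.map_closure]; rfl
  rw [h3, hS]
  constructor
  · rintro ⟨⟨y, hy⟩, hy', rfl⟩
    exact ⟨hy', ((hAN y).1 hy).2⟩
  · rintro ⟨hx, hx0⟩
    exact ⟨⟨x, (hAN x).2 ⟨hle hx, hx0⟩⟩, hx, rfl⟩

/-- the character of a virtual retraction onto a virtually cyclic group -/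
theorem functional {B : Type*} [Group B] (k : B →* G) (hk : Function.Injective k)
    (hvr : IsVirtualRetract k.range) (c : B) (hc : ∀ n : ℤ, c ^ n = 1 → n = 0)
    (hfin : (zpowers c).FiniteIndex) :
    ∃ (K : Subgroup G) (χ : G → ℤ), K.FiniteIndex ∧ Add K χ ∧ k c ∈ K ∧ χ (k c) = 1 ∧
      ∀ b, k b ∈ K → b ∈ zpowers c := by
  classical
  obtain ⟨K₀, hK₀, hle, ρ, hρ⟩ := hvr
  set τ : K₀ →* B := ((MonoidHom.ofInjective hk).symm.toMonoidHom).comp ρ with hτ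
  have hτk : ∀ b (h : k b ∈ K₀), τ ⟨k b, h⟩ = b := by
    intro b h
    have h1 : ρ ⟨k b, h⟩ = ⟨k b, b, rfl⟩ := hρ _ h ⟨b, rfl⟩
    show (MonoidHom.ofInjective hk).symm (ρ ⟨k b, h⟩) = b
    rw [h1, MulEquiv.symm_apply_eq]
    rfl
  have hu : ∀ a b : ℤ, c ^ a = c ^ b → a = b := by
    intro a b h
    have : c ^ (a - b) = 1 := by rw [zpow_sub, h, mul_inv_cancel]
    have := hc _ this
    omega
  set K : Subgroup G := ((zpowers c).comap τ).map K₀.subtype with hK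
  have hKm : ∀ x, x ∈ K ↔ ∃ h : x ∈ K₀, ∃ n : ℤ, c ^ n = τ ⟨x, h⟩ := by
    intro x
    constructor
    · rintro ⟨⟨y, hy⟩, hy', rfl⟩
      exact ⟨hy, Subgroup.mem_zpowers_iff.1 hy'⟩
    · rintro ⟨h, n, hn⟩
      exact ⟨⟨x, h⟩, Subgroup.mem_zpowers_iff.2 ⟨n, hn⟩, rfl⟩
  have hex : ∀ x : G, ∃ n : ℤ, x ∈ K → ∃ h : x ∈ K₀, c ^ n = τ ⟨x, h⟩ := by
    intro x
    by_cases hx : x ∈ K
    · obtain ⟨h, n, hn⟩ := (hKm x).1 hx
      exact ⟨n, fun _ => ⟨h, hn⟩⟩
    · exact ⟨0, fun h => absurd h hx⟩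
  choose χ hχ using hex
  refine ⟨K, χ, map_subtype_finiteIndex hK₀ (comap_finiteIndex τ hfin), ?_, ?_, ?_, ?_⟩
  · intro x hx y hy
    obtain ⟨h1, h2⟩ := hχ x hx
    obtain ⟨h3, h4⟩ := hχ y hy
    obtain ⟨h5, h6⟩ := hχ (x * y) (K.mul_mem hx hy)
    apply hu
    rw [h6, zpow_add, h2, h4, ← map_mul]
    rfl
  · exact (hKm _).2 ⟨hle ⟨c, rfl⟩, 1, by rw [hτk, zpow_one]⟩
  · obtain ⟨h1, h2⟩ := hχ (k c) ((hKm _).2 ⟨hle ⟨c, rfl⟩, 1, by rw [hτk, zpow_one]⟩)
    apply hu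
    rw [h2, hτk, zpow_one]
  · intro b hb
    obtain ⟨h, n, hn⟩ := (hKm _).1 hb
    rw [hτk] at hn
    exact ⟨n, hn⟩

end lemmas

/-- The preparation lemma. -/
theorem prep {G : Type*} [Group G] {J : Type*} [Finite J] {B : J → Type*} [∀ j, Group (B j)]
    (k : ∀ j, B j →* G) (c : ∀ j, B j)
    (hK : ∀ j, ∃ (K : Subgroup G) (χ : G → ℤ), K.FiniteIndex ∧ Add K χ ∧ k j (c j) ∈ K ∧
      χ (k j (c j)) = 1 ∧ ∀ b, k j b ∈ K → b ∈ zpowers (c j))
    (hfib : ∃ (K : Subgroup G) (φ : G → ℤ), K.FiniteIndex ∧ Add K φ ∧ FK K φ ∧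
      ∃ x ∈ K, φ x ≠ 0) :
    ∃ (μ : J → ℕ) (f : G → ℤ), (∀ j, 0 < μ j) ∧ ∀ n : ℕ, 0 < n → ∃ N : Subgroup G,
      N.Normal ∧ N.FiniteIndex ∧ Add N f ∧ FK N f ∧ (∃ x ∈ N, f x ≠ 0) ∧
      (∀ j (i : ℤ), k j (c j) ^ i ∈ N ↔ ((n * μ j : ℕ) : ℤ) ∣ i) ∧
      (∀ j b, k j b ∈ N → b ∈ zpowers (c j)) ∧
      (∀ j (g : G) (i : ℤ), k j (c j) ^ i ∈ N → i ≠ 0 → f (g⁻¹ * k j (c j) ^ i * g) ≠ 0) := by
  classical
  choose K χ hKf hKχ hKc hχ1 hKz using hK
  obtain ⟨Kφ, φ, hKφ, hφ, hkφ, x₀, hx₀, hx₀'⟩ := hfib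
  -- the first normal subgroup
  have hinf : (⨅ j, K j).FiniteIndex := Subgroup.finiteIndex_iInf hKf
  set N₀ : Subgroup G := (Kφ ⊓ ⨅ j, K j).normalCore with hN₀
  have hN₀f : N₀.FiniteIndex := inferInstance
  have hN₀n : N₀.Normal := inferInstance
  have hle1 : N₀ ≤ Kφ := (Subgroup.normalCore_le _).trans inf_le_left
  have hle2 : ∀ j, N₀ ≤ K j := fun j => ((Subgroup.normalCore_le _).trans inf_le_right).trans
    (iInf_le _ j)
  have hfq : Finite (G ⧸ N₀) := Subgroup.finiteIndex_iff_finite_quotient.1 hN₀f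
  have hN₀fk : FK N₀ φ := hkφ.mono hφ hle1 hN₀f
  have hφ₀ : Add N₀ φ := hφ.mono hle1
  -- an element with nonzero value
  obtain ⟨n₁, hn₁, -, hn₁'⟩ := Subgroup.exists_pow_mem_of_index_ne_zero hN₀f.index_ne_zero x₀
  have hx₁ : φ (x₀ ^ n₁) ≠ 0 := by
    rw [hφ.pow hx₀]
    exact mul_ne_zero (by exact_mod_cast hn₁.ne') hx₀'
  -- exponents
  choose m hm0 hm using fun j => exists_exponent hN₀f (k j (c j))
  have hym : ∀ j, k j (c j) ^ (m j : ℤ) ∈ N₀ := fun j => (hm j _).2 dvd_rfl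
  -- the finite set of test elements
  set X : Set G := insert (x₀ ^ n₁) (Set.range fun q : (G ⧸ N₀) × J =>
    q.1.out⁻¹ * k q.2 (c q.2) ^ (m q.2 : ℤ) * q.1.out) with hX
  have hXf : X.Finite := (Set.finite_range _).insert _
  have hXN : ∀ x ∈ X, x ∈ N₀ := by
    rintro x (rfl | ⟨⟨q, j⟩, rfl⟩)
    · exact hn₁'
    · have := hN₀n.conj_mem _ (hym j) q.out⁻¹
      rwa [inv_inv] at this
  obtain ⟨χ₀, hχ₀, hχ₀X⟩ := generic_char (N := N₀) X hXf (by
    rintro x (rfl | ⟨⟨q, j⟩, rfl⟩)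
    · exact ⟨φ, hφ₀, hx₁⟩
    · refine ⟨fun x => χ j (q.out * x * q.out⁻¹), ?_, ?_⟩
      · intro x hx y hy
        have h1 := hKχ j _ (hle2 j (hN₀n.conj_mem x hx q.out)) _ (hle2 j (hN₀n.conj_mem y hy q.out))
        show χ j (q.out * (x * y) * q.out⁻¹) = _
        rw [← h1]
        congr 1
        group
      · show χ j (q.out * (q.out⁻¹ * k j (c j) ^ (m j : ℤ) * q.out) * q.out⁻¹) ≠ 0
        have : q.out * (q.out⁻¹ * k j (c j) ^ (m j : ℤ) * q.out) * q.out⁻¹ =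
          k j (c j) ^ (m j : ℤ) := by group
        rw [this, (hKχ j).zpow (hKc j), hχ1, mul_one]
        exact_mod_cast (hm0 j).ne')
  obtain ⟨n₀, hn₀⟩ := perturb hφ₀ hχ₀ hN₀fk ⟨_, hn₁', hx₁⟩
  -- choose the multiple
  set M : ℕ := n₀ + (∑ x ∈ hXf.toFinset, (χ₀ x).natAbs) + 1 with hM
  set f : G → ℤ := fun x => (M : ℤ) * φ x + 1 * χ₀ x with hf
  have hfN : Add N₀ f := hφ₀.lin hχ₀ _ _
  have hfk : FK N₀ f := hn₀ M (by omega)
  have hfX : ∀ x ∈ X, f x ≠ 0 := by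
    intro x hx h0
    have h1 : (M : ℤ) * φ x + 1 * χ₀ x = 0 := h0
    by_cases h2 : φ x = 0
    · rw [h2] at h1
      exact hχ₀X x hx (by linarith)
    · have h3 : (χ₀ x).natAbs < M := by
        have := Finset.single_le_sum (f := fun x => (χ₀ x).natAbs) (fun _ _ => Nat.zero_le _)
          (hXf.mem_toFinset.2 hx)
        have h6 : (χ₀ x).natAbs ≤ ∑ x ∈ hXf.toFinset, (χ₀ x).natAbs := this
        omega
      have h4 : |χ₀ x| < M := by
        rw [← Int.natCast_natAbs]; exact_mod_cast h3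
      have h5 : 1 ≤ |φ x| := Int.one_le_abs h2
      have h6 : χ₀ x = -((M : ℤ) * φ x) := by linarith
      have h7 : (0 : ℤ) < M := lt_of_le_of_lt (abs_nonneg _) h4
      rw [h6, abs_neg, abs_mul, abs_of_pos h7] at h4
      nlinarith
  -- conjugation invariance
  have hconj : ∀ (g : G) (x : G), x ∈ N₀ → f (g⁻¹ * x * g) =
      f ((QuotientGroup.mk g : G ⧸ N₀).out⁻¹ * x * (QuotientGroup.mk g : G ⧸ N₀).out) := by
    intro g x hx
    obtain ⟨⟨h, hh⟩, hq⟩ := QuotientGroup.mk_out_eq_mul N₀ g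
    have hq' : (QuotientGroup.mk g : G ⧸ N₀).out = g * h := hq
    rw [hq']
    have h1 : g⁻¹ * x * g ∈ N₀ := by
      have := hN₀n.conj_mem x hx g⁻¹
      rwa [inv_inv] at this
    have h2 := hfN.conj h1 (N₀.inv_mem hh)
    rw [← h2]
    congr 1
    group
  have hnz : ∀ j (g : G) (i : ℤ), k j (c j) ^ i ∈ N₀ → ∃ i' : ℤ, i = m j * i' ∧
      ∃ w ∈ X, f (g⁻¹ * k j (c j) ^ i * g) = i' * f w := by
    intro j g i hi
    obtain ⟨i', hi'⟩ := (hm j i).1 hi
    refine ⟨i', hi', _, Or.inr ⟨(QuotientGroup.mk g, j), rfl⟩, ?_⟩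
    rw [hconj g _ hi]
    have h1 : (QuotientGroup.mk g : G ⧸ N₀).out⁻¹ * k j (c j) ^ i * (QuotientGroup.mk g : G ⧸ N₀).out
        = ((QuotientGroup.mk g : G ⧸ N₀).out⁻¹ * k j (c j) ^ (m j : ℤ) *
          (QuotientGroup.mk g : G ⧸ N₀).out) ^ i' := by
      have : ∀ a b : G, (a⁻¹ * b * a) ^ i' = a⁻¹ * b ^ i' * a := by
        intro a b
        have := conj_zpow (i := i') (a := a⁻¹) (b := b)
        rwa [inv_inv] at this
      rw [this, ← zpow_mul, ← hi']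
    rw [h1, hfN.zpow (hXN _ (Or.inr ⟨(QuotientGroup.mk g, j), rfl⟩))]
  -- the modulus
  set L : ℤ := ∏ x ∈ hXf.toFinset, f x with hL
  have hL0 : L ≠ 0 := Finset.prod_ne_zero_iff.2 fun x hx => hfX x (hXf.mem_toFinset.1 hx)
  have hLd : ∀ x ∈ X, f x ∣ L := fun x hx => Finset.dvd_prod_of_mem _ (hXf.mem_toFinset.2 hx)
  -- exponents for the refined subgroups
  choose μ' hμ0 hμ using fun j : J => int_ideal
    (fun i => ∀ g : G, L ∣ f (g⁻¹ * k j (c j) ^ ((m j : ℤ) * i) * g)) (by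
      intro a b ha hb g
      have h1 : ∀ a : ℤ, k j (c j) ^ ((m j : ℤ) * a) ∈ N₀ := fun a => (hm j _).2 ⟨a, rfl⟩
      have h2 : ∀ a : ℤ, g⁻¹ * k j (c j) ^ ((m j : ℤ) * a) * g ∈ N₀ := fun a => by
        have := hN₀n.conj_mem _ (h1 a) g⁻¹
        rwa [inv_inv] at this
      have h3 : g⁻¹ * k j (c j) ^ ((m j : ℤ) * (a - b)) * g =
          (g⁻¹ * k j (c j) ^ ((m j : ℤ) * a) * g) * (g⁻¹ * k j (c j) ^ ((m j : ℤ) * b) * g)⁻¹ := by
        rw [mul_sub, zpow_sub]; group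
      rw [h3, hfN _ (h2 a) _ (N₀.inv_mem (h2 b)), hfN.inv (h2 b), ← sub_eq_add_neg]
      exact dvd_sub (ha g) (hb g)) L hL0 (by
      intro g
      obtain ⟨i', hi', w, hw, h⟩ := hnz j g ((m j : ℤ) * L) ((hm j _).2 ⟨L, rfl⟩)
      have : i' = L := by
        have h5 : (m j : ℤ) ≠ 0 := by exact_mod_cast (hm0 j).ne'
        exact (mul_left_cancel₀ h5 hi').symm
      rw [h, this]
      exact dvd_mul_right _ _)
  refine ⟨fun j => m j * μ' j, f, fun j => Nat.mul_pos (hm0 j) (hμ0 j), fun n hn => ?_⟩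
  have hn' : (n : ℤ) ≠ 0 := by exact_mod_cast hn.ne'
  let N : Subgroup G :=
    { carrier := {x | x ∈ N₀ ∧ ∀ g : G, (n : ℤ) * L ∣ f (g⁻¹ * x * g)}
      mul_mem' := by
        rintro x y ⟨hx, hx'⟩ ⟨hy, hy'⟩
        refine ⟨N₀.mul_mem hx hy, fun g => ?_⟩
        have h1 : g⁻¹ * x * g ∈ N₀ := by have := hN₀n.conj_mem x hx g⁻¹; rwa [inv_inv] at this
        have h2 : g⁻¹ * y * g ∈ N₀ := by have := hN₀n.conj_mem y hy g⁻¹; rwa [inv_inv] at this
        have h3 : g⁻¹ * (x * y) * g = (g⁻¹ * x * g) * (g⁻¹ * y * g) := by group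
        rw [h3, hfN _ h1 _ h2]
        exact dvd_add (hx' g) (hy' g)
      one_mem' := ⟨N₀.one_mem, fun g => by
        have : g⁻¹ * 1 * g = 1 := by group
        rw [this, hfN.one]; exact dvd_zero _⟩
      inv_mem' := by
        rintro x ⟨hx, hx'⟩
        refine ⟨N₀.inv_mem hx, fun g => ?_⟩
        have h1 : g⁻¹ * x * g ∈ N₀ := by have := hN₀n.conj_mem x hx g⁻¹; rwa [inv_inv] at this
        have h3 : g⁻¹ * x⁻¹ * g = (g⁻¹ * x * g)⁻¹ := by group
        rw [h3, hfN.inv h1]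
        exact (dvd_neg).2 (hx' g) }
  have hNm : ∀ x, x ∈ N ↔ x ∈ N₀ ∧ ∀ g : G, (n : ℤ) * L ∣ f (g⁻¹ * x * g) := fun x => Iff.rfl
  have hNle : N ≤ N₀ := fun x hx => hx.1
  have hNn : N.Normal := by
    refine ⟨fun x hx g => ?_⟩
    rw [hNm] at hx ⊢
    refine ⟨hN₀n.conj_mem x hx.1 g, fun g' => ?_⟩
    have h1 := hx.2 (g⁻¹ * g')
    have h2 : (g⁻¹ * g')⁻¹ * x * (g⁻¹ * g') = g'⁻¹ * (g * x * g⁻¹) * g' := by group
    rwa [h2] at h1
  have hNf : N.FiniteIndex := by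
    have hnL : (n * L.natAbs) ≠ 0 := Nat.mul_ne_zero hn.ne' (by simpa using hL0)
    have : NeZero (n * L.natAbs) := ⟨hnL⟩
    refine finiteIndex_of_map (T := (G ⧸ N₀) × ((G ⧸ N₀) → ZMod (n * L.natAbs)))
      (fun x => (QuotientGroup.mk x, fun q =>
        ((f (q.out⁻¹ * ((QuotientGroup.mk x : G ⧸ N₀).out⁻¹ * x) * q.out) : ℤ) :
          ZMod (n * L.natAbs)))) ?_
    intro x y hxy
    simp only [Prod.mk.injEq] at hxy
    obtain ⟨h1, h2⟩ := hxy
    set s := (QuotientGroup.mk x : G ⧸ N₀).out with hs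
    have hsx : s⁻¹ * x ∈ N₀ := by
      have : (QuotientGroup.mk s : G ⧸ N₀) = QuotientGroup.mk x := by rw [hs]; simp
      exact QuotientGroup.eq.1 this
    have hsy : s⁻¹ * y ∈ N₀ := by
      have : (QuotientGroup.mk s : G ⧸ N₀) = QuotientGroup.mk y := by rw [hs, ← h1]; simp
      exact QuotientGroup.eq.1 this
    have h3 : x⁻¹ * y = (s⁻¹ * x)⁻¹ * (s⁻¹ * y) := by group
    have h4 : x⁻¹ * y ∈ N₀ := by rw [h3]; exact N₀.mul_mem (N₀.inv_mem hsx) hsy
    rw [hNm]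
    refine ⟨h4, fun g => ?_⟩
    rw [hconj g _ h4]
    set q : G ⧸ N₀ := QuotientGroup.mk g with hq
    have h5 := congrFun h2 q
    rw [← h1, ← hs] at h5
    have h6 : q.out⁻¹ * (s⁻¹ * x) * q.out ∈ N₀ := by
      have := hN₀n.conj_mem _ hsx q.out⁻¹
      rwa [inv_inv] at this
    have h7 : q.out⁻¹ * (s⁻¹ * y) * q.out ∈ N₀ := by
      have := hN₀n.conj_mem _ hsy q.out⁻¹
      rwa [inv_inv] at this
    have h8 : q.out⁻¹ * (x⁻¹ * y) * q.out =
        (q.out⁻¹ * (s⁻¹ * x) * q.out)⁻¹ * (q.out⁻¹ * (s⁻¹ * y) * q.out) := by group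
    rw [h8, hfN _ (N₀.inv_mem h6) _ h7, hfN.inv h6, neg_add_eq_sub]
    have h9 : ((n * L.natAbs : ℕ) : ℤ) ∣ f (q.out⁻¹ * (s⁻¹ * y) * q.out) -
        f (q.out⁻¹ * (s⁻¹ * x) * q.out) := by
      rw [← ZMod.intCast_zmod_eq_zero_iff_dvd] 
      push_cast
      rw [h5, sub_self]
    have h10 : (n : ℤ) * L ∣ ((n * L.natAbs : ℕ) : ℤ) := by
      push_cast
      exact mul_dvd_mul_left _ ((dvd_abs L L).2 dvd_rfl)
    exact h10.trans h9
  have hex : ∀ j (i : ℤ), k j (c j) ^ i ∈ N ↔ ((n * (m j * μ' j) : ℕ) : ℤ) ∣ i := by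
    intro j i
    rw [hNm]
    have hmj : (m j : ℤ) ≠ 0 := by exact_mod_cast (hm0 j).ne'
    constructor
    · rintro ⟨h1, h2⟩
      obtain ⟨i', rfl⟩ := (hm j i).1 h1
      -- n divides i'
      have h3 : (n : ℤ) ∣ i' := by
        obtain ⟨i'', hi'', w, hw, h⟩ := hnz j 1 _ h1
        have e : i'' = i' := (mul_left_cancel₀ hmj hi'').symm
        have h4 := h2 1
        rw [h, e] at h4
        obtain ⟨L', hL'⟩ := hLd w hw
        rw [hL'] at h4
        have h5 : (n : ℤ) * (f w * L') = (n * L') * f w := by ring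
        rw [h5] at h4
        have h6 := Int.dvd_of_mul_dvd_mul_right (hfX w hw) h4
        exact (dvd_mul_right _ _).trans h6
      obtain ⟨i'', rfl⟩ := h3
      have h4 : (μ' j : ℤ) ∣ i'' := by
        rw [← hμ j]
        intro g
        obtain ⟨a, ha, w, hw, h⟩ := hnz j g _ h1
        have e : a = n * i'' := (mul_left_cancel₀ hmj ha).symm
        have h5 := h2 g
        rw [h, e] at h5
        obtain ⟨b, hb, w', hw', h'⟩ := hnz j g ((m j : ℤ) * i'') ((hm j _).2 ⟨i'', rfl⟩)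
        have e' : b = i'' := (mul_left_cancel₀ hmj hb).symm
        -- the two values are compatible by additivity
        have hmem : g⁻¹ * k j (c j) ^ ((m j : ℤ) * i'') * g ∈ N₀ := by
          have := hN₀n.conj_mem _ ((hm j ((m j : ℤ) * i'')).2 ⟨i'', rfl⟩) g⁻¹
          rwa [inv_inv] at this
        have h7 : f (g⁻¹ * k j (c j) ^ ((m j : ℤ) * (n * i'')) * g) =
            n * f (g⁻¹ * k j (c j) ^ ((m j : ℤ) * i'') * g) := by
          have h8 : g⁻¹ * k j (c j) ^ ((m j : ℤ) * (n * i'')) * g =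
              (g⁻¹ * k j (c j) ^ ((m j : ℤ) * i'') * g) ^ (n : ℤ) := by
            have : ∀ a b : G, (a⁻¹ * b * a) ^ (n : ℤ) = a⁻¹ * b ^ (n : ℤ) * a := by
              intro a b
              have := conj_zpow (i := (n : ℤ)) (a := a⁻¹) (b := b)
              rwa [inv_inv] at this
            rw [this, ← zpow_mul]
            congr 3
            ring
          rw [h8, hfN.zpow hmem]
        have h9 := h2 g
        rw [h7] at h9
        exact Int.dvd_of_mul_dvd_mul_left hn' h9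
      obtain ⟨a, rfl⟩ := h4
      exact ⟨a, by push_cast; ring⟩
    · rintro ⟨a, rfl⟩
      have h1 : ((n * (m j * μ' j) : ℕ) : ℤ) * a = m j * (n * (μ' j * a)) := by push_cast; ring
      rw [h1]
      refine ⟨(hm j _).2 ⟨_, rfl⟩, fun g => ?_⟩
      have h2 := (hμ j (μ' j * a)).2 ⟨a, rfl⟩ g
      have hmem : g⁻¹ * k j (c j) ^ ((m j : ℤ) * (μ' j * a)) * g ∈ N₀ := by
        have := hN₀n.conj_mem _ ((hm j ((m j : ℤ) * (μ' j * a))).2 ⟨_, rfl⟩) g⁻¹
        rwa [inv_inv] at this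
      have h8 : g⁻¹ * k j (c j) ^ ((m j : ℤ) * (n * (μ' j * a))) * g =
          (g⁻¹ * k j (c j) ^ ((m j : ℤ) * (μ' j * a)) * g) ^ (n : ℤ) := by
        have : ∀ a b : G, (a⁻¹ * b * a) ^ (n : ℤ) = a⁻¹ * b ^ (n : ℤ) * a := by
          intro a b
          have := conj_zpow (i := (n : ℤ)) (a := a⁻¹) (b := b)
          rwa [inv_inv] at this
        rw [this, ← zpow_mul]
        congr 3
        ring
      rw [h8, hfN.zpow hmem]
      exact mul_dvd_mul_left _ h2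
  refine ⟨N, hNn, hNf, hfN.mono hNle, hfk.mono hfN hNle hNf, ?_, hex, ?_, ?_⟩
  · obtain ⟨a, ha, -, ha'⟩ := Subgroup.exists_pow_mem_of_index_ne_zero hNf.index_ne_zero (x₀ ^ n₁)
    refine ⟨_, ha', ?_⟩
    rw [hfN.pow hn₁']
    exact mul_ne_zero (by exact_mod_cast ha.ne') (hfX _ (Or.inl rfl))
  · intro j b hb
    exact hKz j b (hle2 j (hNle hb))
  · intro j g i hi hi0
    obtain ⟨i', hi', w, hw, h⟩ := hnz j g i (hNle hi)
    rw [h]
    refine mul_ne_zero ?_ (hfX w hw)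
    rintro rfl
    exact hi0 (by rw [hi', mul_zero])

end Pool.Agent.Q14.TG
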